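import Pool.Agent.Lib.MP_104f04_lc.Value

/-!
# Decomposition of a position into independent pieces
-/

namespace Pool.Agent.Lib.MP_104f04_lc

set_option linter.unusedSectionVars false

open Finset Relation

variable {V : Type} [DecidableEq V]

/-- two vertices of `W` that can be dominated by the same move -/
def Link (F : Finset (Finset V)) (W : Finset V) (x y : V) : Prop :=
  x ∈ W ∧ y ∈ W ∧ ∃ A ∈ F, x ∈ A ∧ y ∈ A

theorem Link.symm {F : Finset (Finset V)} {W : Finset V} {x y : V} (h : Link F W x y) :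
    Link F W y x := by
  obtain ⟨h1, h2, A, hA, h3, h4⟩ := h
  exact ⟨h2, h1, A, hA, h4, h3⟩

open Classical in
/-- the piece of `q` -/
noncomputable def comp (F : Finset (Finset V)) (W : Finset V) (q : V) : Finset V :=
  W.filter (fun y => ReflTransGen (Link F W) q y)

variable {F : Finset (Finset V)} {W : Finset V}

theorem mem_comp {q y : V} : y ∈ comp F W q ↔ y ∈ W ∧ ReflTransGen (Link F W) q y := by
  simp [comp]

theorem comp_subset (q : V) : comp F W q ⊆ W := fun _ h => (mem_comp.1 h).1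

theorem self_mem_comp {q : V} (h : q ∈ W) : q ∈ comp F W q := mem_comp.2 ⟨h, .refl⟩

theorem comp_indep (q : V) (A : Finset V) (hA : A ∈ F) :
    A ∩ comp F W q = ∅ ∨ A ∩ (W \ comp F W q) = ∅ := by
  by_contra h
  push Not at h
  obtain ⟨⟨x, hx⟩, ⟨y, hy⟩⟩ := h
  rw [mem_inter] at hx
  rw [mem_inter, mem_sdiff] at hy
  obtain ⟨hxA, hx⟩ := hx
  obtain ⟨hyA, hyW, hy⟩ := hy
  rw [mem_comp] at hx
  exact hy (mem_comp.2 ⟨hyW, hx.2.tail ⟨hx.1, hyW, A, hA, hxA, hyA⟩⟩)

theorem rtg_symm {q y : V} (h : ReflTransGen (Link F W) q y) : ReflTransGen (Link F W) y q := by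
  induction h with
  | refl => exact .refl
  | tail _ h ih => exact ReflTransGen.head h.symm ih

theorem comp_eq_of_mem {q y : V} (h : y ∈ comp F W q) : comp F W y = comp F W q := by
  rw [mem_comp] at h
  ext z
  rw [mem_comp, mem_comp]
  exact ⟨fun h' => ⟨h'.1, h.2.trans h'.2⟩, fun h' => ⟨h'.1, (rtg_symm h.2).trans h'.2⟩⟩

theorem Link.mono {W' : Finset V} (h : W' ⊆ W) {x y : V} (hl : Link F W' x y) : Link F W x y :=
  ⟨h hl.1, h hl.2.1, hl.2.2⟩

theorem comp_mono {W' : Finset V} (h : W' ⊆ W) (q : V) : comp F W' q ⊆ comp F W q := by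
  intro y hy
  rw [mem_comp] at hy ⊢
  exact ⟨h hy.1, ReflTransGen.mono (r := Link F W') (p := Link F W) (fun _ _ => Link.mono h) _ _ hy.2⟩

/-- If the piece of `q` in `W` lies in `W' ⊆ W`, then it is the piece of `q` in `W'`. -/
theorem comp_eq_of_subset {W' : Finset V} (h : W' ⊆ W) {q : V} (h' : comp F W q ⊆ W') :
    comp F W' q = comp F W q := by
  apply Subset.antisymm (comp_mono h q)
  intro y hy
  obtain ⟨hyW, hp⟩ := mem_comp.1 hy
  refine mem_comp.2 ⟨h' hy, ?_⟩
  clear hy hyW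
  induction hp with
  | refl => exact .refl
  | tail h1 h2 ih =>
    refine ih.tail ⟨h' (mem_comp.2 ⟨h2.1, h1⟩), h' (mem_comp.2 ⟨h2.2.1, h1.tail h2⟩), h2.2.2⟩

/-- pieces of the complement of a piece -/
theorem comp_sdiff_comp {q y : V} (hy : y ∈ W \ comp F W q) :
    comp F (W \ comp F W q) y = comp F W y := by
  apply comp_eq_of_subset sdiff_subset
  intro z hz
  rw [mem_sdiff] at hy ⊢
  refine ⟨comp_subset _ hz, fun hzq => hy.2 ?_⟩
  rw [← comp_eq_of_mem hzq, comp_eq_of_mem hz]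
  exact self_mem_comp hy.1

/-- pieces of the rest of a piece -/
theorem comp_comp_sdiff {q y : V} {A : Finset V} (hy : y ∈ comp F W q \ A) :
    comp F (comp F W q \ A) y = comp F (W \ A) y := by
  apply comp_eq_of_subset (sdiff_subset_sdiff (comp_subset q) (le_refl _))
  intro z hz
  rw [mem_sdiff] at hy ⊢
  have h1 := comp_mono (F := F) (sdiff_subset (s := W) (t := A)) y hz
  rw [comp_eq_of_mem hy.1] at h1
  exact ⟨h1, (mem_sdiff.1 (comp_subset _ hz)).2⟩

theorem val_comp_add {s : ℕ} (hs : W.card ≤ s) (hc : Cover F W) (q : V) :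
    val F s W = val F s (comp F W q) + val F s (W \ comp F W q) := by
  have h1 : W = comp F W q ∪ (W \ comp F W q) := by
    rw [union_sdiff_of_subset (comp_subset q)]
  have h2 : (comp F W q).card + (W \ comp F W q).card = W.card := by
    rw [add_comm]
    exact card_sdiff_add_card_eq_card (comp_subset q)
  conv_lhs => rw [h1]
  exact val_union (by omega) (hc.mono (comp_subset q)) (hc.mono sdiff_subset)
    (fun A hA => comp_indep q A hA)

section order

variable {V : Type} [LinearOrder V] {F : Finset (Finset V)}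

open Classical in
/-- the least elements of the pieces -/
noncomputable def reps (F : Finset (Finset V)) (W : Finset V) : Finset V :=
  W.filter (fun q => ∀ y ∈ comp F W q, q ≤ y)

theorem mem_reps {W : Finset V} {q : V} : q ∈ reps F W ↔ q ∈ W ∧ ∀ y ∈ comp F W q, q ≤ y := by
  simp [reps]

theorem val_sum_aux (s n : ℕ) : ∀ W : Finset V, W.card ≤ n → W.card ≤ s → Cover F W →
    val F s W = ∑ q ∈ reps F W, val F s (comp F W q) := by
  induction n with
  | zero =>
    intro W hW _ _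
    have : W = ∅ := card_eq_zero.1 (Nat.le_zero.1 hW)
    subst this
    simp [val_empty, reps]
  | succ n ih =>
    intro W hn hs hc
    rcases W.eq_empty_or_nonempty with h0 | hne
    · subst h0
      simp [val_empty, reps]
    set q := W.min' hne with hq
    have hqW : q ∈ W := min'_mem W hne
    have hqm : ∀ y ∈ W, q ≤ y := fun y hy => min'_le W y hy
    have hqc : q ∈ comp F W q := self_mem_comp hqW
    have hcard : (W \ comp F W q).card < W.card := by
      apply card_lt_card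
      exact ⟨sdiff_subset, fun h => (mem_sdiff.1 (h hqW)).2 hqc⟩
    have h1 := ih (W \ comp F W q) (by omega) (by omega) (hc.mono sdiff_subset)
    have h2 : reps F W = insert q (reps F (W \ comp F W q)) := by
      ext y
      rw [mem_insert, mem_reps, mem_reps]
      constructor
      · rintro ⟨hyW, hy⟩
        by_cases hyc : y ∈ comp F W q
        · left
          rw [comp_eq_of_mem hyc] at hy
          exact le_antisymm (hy q hqc) (hqm y hyW)
        · right
          have h3 : y ∈ W \ comp F W q := mem_sdiff.2 ⟨hyW, hyc⟩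
          rw [comp_sdiff_comp h3]
          exact ⟨h3, hy⟩
      · rintro (rfl | ⟨h3, hy⟩)
        · exact ⟨hqW, fun y hy => hqm y (comp_subset _ hy)⟩
        · rw [comp_sdiff_comp h3] at hy
          exact ⟨sdiff_subset h3, hy⟩
    have h3 : q ∉ reps F (W \ comp F W q) := by
      rw [mem_reps]
      rintro ⟨h, _⟩
      exact (mem_sdiff.1 h).2 hqc
    rw [h2, sum_insert h3, val_comp_add hs hc q, h1]
    congr 1
    refine sum_congr rfl fun y hy => ?_
    rw [comp_sdiff_comp (mem_reps.1 hy).1]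

/-- the value is the sum of the values of the pieces -/
theorem val_sum {s : ℕ} {W : Finset V} (hs : W.card ≤ s) (hc : Cover F W) :
    val F s W = ∑ q ∈ reps F W, val F s (comp F W q) :=
  val_sum_aux s _ W le_rfl hs hc

end order

/-! ### Computation of pieces by iteration -/

open Classical in
/-- one step of the search for the piece -/
noncomputable def stepF (F : Finset (Finset V)) (W X : Finset V) : Finset V :=
  W.filter (fun y => y ∈ X ∨ ∃ A ∈ F, y ∈ A ∧ (A ∩ X).Nonempty)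

theorem mem_stepF {X : Finset V} {y : V} :
    y ∈ stepF F W X ↔ y ∈ W ∧ (y ∈ X ∨ ∃ A ∈ F, y ∈ A ∧ (A ∩ X).Nonempty) := by
  simp [stepF]

theorem iterate_stepF {q : V} (hq : q ∈ W) {n : ℕ} (hn : W.card ≤ n) :
    (stepF F W)^[n] {q} = comp F W q := by
  have sub : ∀ k, (stepF F W)^[k] {q} ⊆ comp F W q := by
    intro k
    induction k with
    | zero => simpa using self_mem_comp hq
    | succ k ih =>
      rw [Function.iterate_succ_apply']
      intro y hy
      rw [mem_stepF] at hy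
      obtain ⟨hyW, hy | ⟨A, hA, hyA, ⟨x, hx⟩⟩⟩ := hy
      · exact ih hy
      · rw [mem_inter] at hx
        have h1 := mem_comp.1 (ih hx.2)
        exact mem_comp.2 ⟨hyW, h1.2.tail ⟨h1.1, hyW, A, hA, hx.1, hyA⟩⟩
  have infl : ∀ k, (stepF F W)^[k] {q} ⊆ (stepF F W)^[k + 1] {q} := by
    intro k y hy
    rw [Function.iterate_succ_apply', mem_stepF]
    exact ⟨comp_subset _ (sub k hy), Or.inl hy⟩
  have mem0 : ∀ k, q ∈ (stepF F W)^[k] {q} := by
    intro k
    induction k with
    | zero => simp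
    | succ k ih => exact infl k ih
  -- the iteration becomes stationary
  obtain ⟨k, hk, hst⟩ : ∃ k, k < n ∧ (stepF F W)^[k + 1] {q} = (stepF F W)^[k] {q} := by
    by_contra hcon
    push Not at hcon
    have grow : ∀ k, k ≤ n → k + 1 ≤ ((stepF F W)^[k] {q}).card := by
      intro k
      induction k with
      | zero => intro _; simp
      | succ k ih =>
        intro hk
        have h1 := ih (by omega)
        have h2 : ((stepF F W)^[k] {q}).card < ((stepF F W)^[k + 1] {q}).card := by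
          apply card_lt_card
          exact lt_of_le_of_ne (infl k) (fun h => hcon k (by omega) h.symm)
        omega
    have h1 := grow n le_rfl
    have h2 := card_le_card ((sub n).trans (comp_subset q))
    omega
  have stable : ∀ j, (stepF F W)^[k + j] {q} = (stepF F W)^[k] {q} := by
    intro j
    induction j with
    | zero => rfl
    | succ j ih =>
      rw [← Nat.add_assoc, Function.iterate_succ_apply', ih]
      rw [Function.iterate_succ_apply'] at hst
      exact hst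
  have hn' : (stepF F W)^[n] {q} = (stepF F W)^[k] {q} := by
    have := stable (n - k)
    rwa [show k + (n - k) = n by omega] at this
  rw [hn']
  apply Subset.antisymm (sub k)
  intro y hy
  obtain ⟨hyW, hp⟩ := mem_comp.1 hy
  clear hy hyW
  induction hp with
  | refl => exact mem0 k
  | tail h1 h2 ih =>
    rw [← hst, Function.iterate_succ_apply', mem_stepF]
    obtain ⟨A, hA, h3, h4⟩ := h2.2.2
    exact ⟨h2.2.1, Or.inr ⟨A, hA, h4, ⟨_, mem_inter.2 ⟨h3, ih⟩⟩⟩⟩

/-! ### Interval graphs and proper interval graphs -/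

/-- of any three moves two determine a piece -/
def ThreeTwo (F : Finset (Finset V)) (U : Finset V) : Prop :=
  ∀ A ∈ F, ∀ B ∈ F, ∀ C ∈ F, ∀ q ∈ ((U \ A) \ B) \ C,
    comp F (((U \ A) \ B) \ C) q = comp F ((U \ A) \ B) q ∨
    comp F (((U \ A) \ B) \ C) q = comp F ((U \ A) \ C) q ∨
    comp F (((U \ A) \ B) \ C) q = comp F ((U \ B) \ C) q

open Classical in
/-- the closed neighbourhoods in the intersection graph of the intervals `[l i, r i]`, `i ∈ I` -/
noncomputable def intFam (I : Finset V) (l r : V → ℝ) : Finset (Finset V) :=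
  I.image (fun i => I.filter (fun j => l i ≤ r j ∧ l j ≤ r i))

theorem mem_intFam {I : Finset V} {l r : V → ℝ} {A : Finset V} : A ∈ intFam I l r ↔
    ∃ i ∈ I, ∀ j, j ∈ A ↔ j ∈ I ∧ l i ≤ r j ∧ l j ≤ r i := by
  classical
  simp only [intFam, mem_image]
  constructor
  · rintro ⟨i, hi, rfl⟩
    exact ⟨i, hi, fun j => by simp⟩
  · rintro ⟨i, hi, h⟩
    refine ⟨i, hi, ?_⟩
    ext j
    rw [h, mem_filter]

/-- interval graphs have the maximum neighbour property -/
theorem maxNbr_intFam (I : Finset V) (l r : V → ℝ) (hlr : ∀ i ∈ I, l i ≤ r i) :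
    MaxNbr (intFam I l r) := by
  classical
  intro U hU hc
  obtain ⟨u, hu, humin⟩ := Finset.exists_min_image U r hU
  obtain ⟨A₀, hA₀, huA₀⟩ := hc u hu
  obtain ⟨i₀, hi₀, hA₀'⟩ := mem_intFam.1 hA₀
  have huI : u ∈ I := ((hA₀' u).1 huA₀).1
  -- the neighbour of `u` with the largest right end
  obtain ⟨w, hw, hwmax⟩ := Finset.exists_max_image (I.filter (fun j => l u ≤ r j ∧ l j ≤ r u)) r
    ⟨u, by simp [huI, hlr u huI]⟩
  rw [mem_filter] at hw
  refine ⟨u, hu, I.filter (fun j => l w ≤ r j ∧ l j ≤ r w), mem_intFam.2 ⟨w, hw.1, by simp⟩,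
    ?_, ?_⟩
  · rw [mem_filter]
    exact ⟨huI, hw.2.2, hw.2.1⟩
  · intro B hB huB x hx
    rw [mem_inter] at hx
    obtain ⟨z, hz, hB'⟩ := mem_intFam.1 hB
    obtain ⟨_, hz1, hz2⟩ := (hB' u).1 huB
    obtain ⟨hxI, hz3, hz4⟩ := (hB' x).1 hx.1
    have h1 := hwmax z (by rw [mem_filter]; exact ⟨hz, hz2, hz1⟩)
    have h2 := humin x hx.2
    rw [mem_filter]
    exact ⟨hxI, hw.2.2.trans h2, hz4.trans h1⟩

/-- A piece on the right of `b` stays on the right of `b`. -/
theorem comp_right {I : Finset V} {l r : V → ℝ} (hlr : ∀ i ∈ I, l i ≤ r i)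
    (hp : ∀ u ∈ I, ∀ v ∈ I, ¬ Set.Icc (l u) (r u) ⊂ Set.Icc (l v) (r v))
    {W : Finset V} {b : V} (hb : b ∈ I)
    (hWb : ∀ x ∈ W, ¬ (l b ≤ r x ∧ l x ≤ r b)) {q : V} (hq : r b < l q) :
    ∀ x ∈ comp (intFam I l r) W q, r b < l x := by
  intro x hx
  obtain ⟨hxW, hp'⟩ := mem_comp.1 hx
  clear hx hxW
  induction hp' with
  | refl => exact hq
  | @tail y z _ h ih =>
    obtain ⟨hy, hz, A, hA, hyA, hzA⟩ := h
    by_contra hcon
    push Not at hcon
    have h1 : r z < l b := by
      by_contra h2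
      push Not at h2
      exact hWb z hz ⟨h2, hcon⟩
    obtain ⟨w, hw, hA'⟩ := mem_intFam.1 hA
    obtain ⟨_, _, h2⟩ := (hA' y).1 hyA
    obtain ⟨_, h3, _⟩ := (hA' z).1 hzA
    refine hp b hb w hw ⟨Set.Icc_subset_Icc (by linarith) (by linarith), fun h4 => ?_⟩
    have h5 : l w ∈ Set.Icc (l b) (r b) := h4 ⟨le_rfl, hlr w hw⟩
    have := h5.1
    linarith

/-- A piece on the left of `b` stays on the left of `b`. -/
theorem comp_left {I : Finset V} {l r : V → ℝ} (hlr : ∀ i ∈ I, l i ≤ r i)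
    (hp : ∀ u ∈ I, ∀ v ∈ I, ¬ Set.Icc (l u) (r u) ⊂ Set.Icc (l v) (r v))
    {W : Finset V} {b : V} (hb : b ∈ I)
    (hWb : ∀ x ∈ W, ¬ (l b ≤ r x ∧ l x ≤ r b)) {q : V} (hq : r q < l b) :
    ∀ x ∈ comp (intFam I l r) W q, r x < l b := by
  intro x hx
  obtain ⟨hxW, hp'⟩ := mem_comp.1 hx
  clear hx hxW
  induction hp' with
  | refl => exact hq
  | @tail y z _ h ih =>
    obtain ⟨hy, hz, A, hA, hyA, hzA⟩ := h
    by_contra hcon
    push Not at hcon
    have h1 : r b < l z := by
      by_contra h2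
      push Not at h2
      exact hWb z hz ⟨hcon, h2⟩
    obtain ⟨w, hw, hA'⟩ := mem_intFam.1 hA
    obtain ⟨_, h2, _⟩ := (hA' y).1 hyA
    obtain ⟨_, _, h3⟩ := (hA' z).1 hzA
    refine hp b hb w hw ⟨Set.Icc_subset_Icc (by linarith) (by linarith), fun h4 => ?_⟩
    have h5 : l w ∈ Set.Icc (l b) (r b) := h4 ⟨le_rfl, hlr w hw⟩
    have := h5.1
    linarith

/-- Of two moves on the left of `q` the left one can be dropped; same on the right. -/
theorem drop_one {I : Finset V} {l r : V → ℝ} (hlr : ∀ i ∈ I, l i ≤ r i)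
    (hp : ∀ u ∈ I, ∀ v ∈ I, ¬ Set.Icc (l u) (r u) ⊂ Set.Icc (l v) (r v))
    {W A B : Finset V} (hW : W ⊆ I) {a b : V} (hb : b ∈ I)
    (hA : ∀ j, j ∈ A ↔ j ∈ I ∧ l a ≤ r j ∧ l j ≤ r a)
    (hB : ∀ j, j ∈ B ↔ j ∈ I ∧ l b ≤ r j ∧ l j ≤ r b) {q : V}
    (h : (r a ≤ r b ∧ r b < l q) ∨ (l b ≤ l a ∧ r q < l b)) :
    comp (intFam I l r) ((W \ A) \ B) q = comp (intFam I l r) (W \ B) q := by
  apply comp_eq_of_subset (sdiff_subset_sdiff sdiff_subset (le_refl _))
  intro x hx
  have hxW := comp_subset _ hx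
  rw [mem_sdiff] at hxW
  rw [mem_sdiff, mem_sdiff]
  refine ⟨⟨hxW.1, fun hxA => ?_⟩, hxW.2⟩
  have hWb : ∀ x ∈ W \ B, ¬ (l b ≤ r x ∧ l x ≤ r b) := by
    intro x hx hx'
    rw [mem_sdiff] at hx
    exact hx.2 ((hB x).2 ⟨hW hx.1, hx'⟩)
  obtain ⟨_, h1, h2⟩ := (hA x).1 hxA
  rcases h with ⟨h3, h4⟩ | ⟨h3, h4⟩
  · have := comp_right hlr hp hb hWb h4 x hx
    linarith
  · have := comp_left hlr hp hb hWb h4 x hx
    linarith

theorem threeTwo_intFam (I : Finset V) (l r : V → ℝ) (hlr : ∀ i ∈ I, l i ≤ r i)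
    (hp : ∀ u ∈ I, ∀ v ∈ I, ¬ Set.Icc (l u) (r u) ⊂ Set.Icc (l v) (r v)) {U : Finset V}
    (hU : U ⊆ I) : ThreeTwo (intFam I l r) U := by
  intro A hA B hB C hC q hq
  obtain ⟨a, ha, hA'⟩ := mem_intFam.1 hA
  obtain ⟨b, hb, hB'⟩ := mem_intFam.1 hB
  obtain ⟨c, hc, hC'⟩ := mem_intFam.1 hC
  simp only [mem_sdiff] at hq
  obtain ⟨⟨⟨hqU, hqA⟩, hqB⟩, hqC⟩ := hq
  have side : ∀ (i : V), ¬ (l i ≤ r q ∧ l q ≤ r i) → r q < l i ∨ r i < l q := by
    intro i h
    by_contra h'
    push Not at h'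
    exact h h'
  have sa := side a (fun h => hqA ((hA' q).2 ⟨hU hqU, h⟩))
  have sb := side b (fun h => hqB ((hB' q).2 ⟨hU hqU, h⟩))
  have sc := side c (fun h => hqC ((hC' q).2 ⟨hU hqU, h⟩))
  -- drop `A` because of `B`, etc.
  have dAB := fun h => drop_one (q := q) (A := A) (B := B) hlr hp
    (sdiff_subset.trans hU : U \ C ⊆ I) hb hA' hB' h
  have dBA := fun h => drop_one (q := q) (A := B) (B := A) hlr hp
    (sdiff_subset.trans hU : U \ C ⊆ I) ha hB' hA' h
  have dAC := fun h => drop_one (q := q) (A := A) (B := C) hlr hp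
    (sdiff_subset.trans hU : U \ B ⊆ I) hc hA' hC' h
  have dCA := fun h => drop_one (q := q) (A := C) (B := A) hlr hp
    (sdiff_subset.trans hU : U \ B ⊆ I) ha hC' hA' h
  have dBC := fun h => drop_one (q := q) (A := B) (B := C) hlr hp
    (sdiff_subset.trans hU : U \ A ⊆ I) hc hB' hC' h
  have dCB := fun h => drop_one (q := q) (A := C) (B := B) hlr hp
    (sdiff_subset.trans hU : U \ A ⊆ I) hb hC' hB' h
  have e1 : ((U \ C) \ A) \ B = ((U \ A) \ B) \ C := by
    rw [sdiff_sdiff_comm (a := U) (b := C) (c := A), sdiff_sdiff_comm (a := U \ A)]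
  have e2 : ((U \ C) \ B) \ A = ((U \ A) \ B) \ C := by
    rw [sdiff_sdiff_comm (a := U \ C) (b := B) (c := A), e1]
  have e3 : ((U \ B) \ A) \ C = ((U \ A) \ B) \ C := by
    rw [sdiff_sdiff_comm (a := U) (b := B) (c := A)]
  have e4 : ((U \ B) \ C) \ A = ((U \ A) \ B) \ C := by
    rw [sdiff_sdiff_comm (a := U \ B) (b := C) (c := A), e3]
  have e5 : ((U \ A) \ C) \ B = ((U \ A) \ B) \ C := by
    rw [sdiff_sdiff_comm (a := U \ A) (b := C) (c := B)]
  rw [e1] at dAB
  rw [e2] at dBA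
  rw [e3] at dAC
  rw [e4] at dCA
  rw [e5] at dCB
  rw [sdiff_sdiff_comm (a := U) (b := C) (c := B)] at dAB
  rw [sdiff_sdiff_comm (a := U) (b := C) (c := A)] at dBA
  rw [sdiff_sdiff_comm (a := U) (b := B) (c := A)] at dCA
  rcases sa with sa | sa <;> rcases sb with sb | sb
  · rcases le_total (l b) (l a) with h | h
    · exact Or.inr (Or.inr (dAB (Or.inr ⟨h, sb⟩)))
    · exact Or.inr (Or.inl (dBA (Or.inr ⟨h, sa⟩)))
  · rcases sc with sc | sc
    · rcases le_total (l c) (l a) with h | h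
      · exact Or.inr (Or.inr (dAC (Or.inr ⟨h, sc⟩)))
      · exact Or.inl (dCA (Or.inr ⟨h, sa⟩))
    · rcases le_total (r b) (r c) with h | h
      · exact Or.inr (Or.inl (dBC (Or.inl ⟨h, sc⟩)))
      · exact Or.inl (dCB (Or.inl ⟨h, sb⟩))
  · rcases sc with sc | sc
    · rcases le_total (l c) (l b) with h | h
      · exact Or.inr (Or.inl (dBC (Or.inr ⟨h, sc⟩)))
      · exact Or.inl (dCB (Or.inr ⟨h, sb⟩))
    · rcases le_total (r a) (r c) with h | h
      · exact Or.inr (Or.inr (dAC (Or.inl ⟨h, sc⟩)))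
      · exact Or.inl (dCA (Or.inl ⟨h, sa⟩))
  · rcases le_total (r a) (r b) with h | h
    · exact Or.inr (Or.inr (dAB (Or.inl ⟨h, sb⟩)))
    · exact Or.inr (Or.inl (dBA (Or.inl ⟨h, sa⟩)))

end Pool.Agent.Lib.MP_104f04_lc
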