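import Pool.Agent.Lib.MP_104f04_lc.Bits
import Pool.Agent.Lib.MP_104f04_lc.Pieces

/-!
# The algorithm and its correctness

Sets of vertices are sorted lists of natural numbers; `Ns` is the list of the closed
neighbourhoods.
-/

namespace Pool.Agent.Lib.MP_104f04_lc

open Finset

/-! ### Definitions -/

/-- `cand` on bits -/
def candB (w s : ℕ) (lo : List Bool) (j : ℕ) : List Bool :=
  (List.replicate (s - j) false ++ addB w (lo.drop (s - j)) [true]).take w

/-- `simplest` on bits -/
def simpB (w s : ℕ) (lo hi : List Bool) : List Bool :=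
  (Option.casesOn ((List.range (s + 1)).find? (fun j => ltB w (candB w s lo j) hi)) []
    (fun j => candB w s lo j) : List Bool)

/-- difference of lists -/
def diffL (W A : List ℕ) : List ℕ := W.filter (fun y => !decide (y ∈ A))

/-- do two lists meet? -/
def meets (A C : List ℕ) : Bool := A.any (fun z => decide (z ∈ C))

/-- `stepF` on lists -/
def stepL (Ns : List (List ℕ)) (W X : List ℕ) : List ℕ :=
  W.filter (fun y => decide (y ∈ X) || Ns.any (fun A => decide (y ∈ A) && meets A X))

/-- the piece of `q` -/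
def compL (Ns : List (List ℕ)) (W : List ℕ) (q : ℕ) : List ℕ := (stepL Ns W)^[W.length] [q]

/-- the least elements of the pieces -/
def repsL (Ns : List (List ℕ)) (W : List ℕ) : List ℕ :=
  W.filter (fun q => decide ((compL Ns W q).head? = some q))

/-- the entry of a table -/
def look (T : List (List ℕ × List Bool)) (C : List ℕ) : List Bool :=
  (Option.casesOn (T.find? (fun p => decide (C = p.1))) [] (fun p => p.2) : List Bool)

/-- the sum of the entries of the pieces -/
def sumB (Ns : List (List ℕ)) (T : List (List ℕ × List Bool)) (w : ℕ) (W : List ℕ) : List Bool :=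
  (repsL Ns W).foldl (fun acc q => addB w acc (look T (compL Ns W q))) []

/-- the values of the options -/
def valsB (Ns : List (List ℕ)) (T : List (List ℕ × List Bool)) (w : ℕ) (C : List ℕ) :
    List (List Bool) :=
  (Ns.filter (fun A => meets A C)).map (fun A => sumB Ns T w (diffL C A))

/-- the value, from the values of smaller pieces -/
def evalB (Ns : List (List ℕ)) (T : List (List ℕ × List Bool)) (w s : ℕ) (C : List ℕ) :
    List Bool :=
  if C = [] then [] else simpB w s (maxB w (valsB Ns T w C))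
    (addB w (minB w (valsB Ns T w C)) (List.replicate (s + 1) false ++ [true]))

/-- one round: recompute all entries of the table -/
def roundB (Ns : List (List ℕ)) (w s : ℕ) (T : List (List ℕ × List Bool)) :
    List (List ℕ × List Bool) :=
  T.map (fun p => (p.1, evalB Ns T w s p.1))

/-- all pieces -/
def famL (Ns : List (List ℕ)) (U : List ℕ) : List (List ℕ) :=
  (U :: (Ns.map (fun A => diffL U A) ++
    Ns.flatMap (fun A => Ns.map (fun B => diffL (diffL U A) B)))).flatMap
      (fun W => W.map (fun q => compL Ns W q))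

/-- the table after `k` rounds -/
def tabB (Ns : List (List ℕ)) (U : List ℕ) (w s k : ℕ) : List (List ℕ × List Bool) :=
  (roundB Ns w s)^[k] ((famL Ns U).map (fun C => (C, [])))

/-- the result -/
def valB (Ns : List (List ℕ)) (U : List ℕ) (w s k : ℕ) : List Bool :=
  sumB Ns (tabB Ns U w s k) w U

/-! ### Numbers -/

theorem bval_candB {w s j : ℕ} {lo : List Bool} (h : cand s (bval lo) j < 2 ^ w) :
    bval (candB w s lo j) = cand s (bval lo) j := by
  unfold candB cand at *
  rw [bval_take, bval_append, bval_replicate_false, List.length_replicate, bval_addB, bval_drop]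
  simp only [bval_cons, bval_nil, Bool.toNat_true, zero_add, mul_zero, add_zero]
  rw [Nat.mul_mod, Nat.mod_mod, ← Nat.mul_mod, mul_comm]
  exact Nat.mod_eq_of_lt h

theorem bval_simpB {w s : ℕ} {lo hi : List Bool} (hlo : bval lo + 2 ^ s < 2 ^ w)
    (hhi : bval hi < 2 ^ w) : bval (simpB w s lo hi) = simplest s (bval lo) (bval hi) := by
  have h1 : ∀ j, cand s (bval lo) j < 2 ^ w := by
    intro j
    have h2 := cand_le s (bval lo) j
    have h3 : 2 ^ (s - j) ≤ 2 ^ s := Nat.pow_le_pow_right (by norm_num) (by omega)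
    omega
  have h2 : ∀ j, ltB w (candB w s lo j) hi = decide (cand s (bval lo) j < bval hi) := by
    intro j
    rw [ltB_eq (by rw [bval_candB (h1 j)]; exact h1 j) hhi, bval_candB (h1 j)]
  unfold simpB simplest
  simp only [h2]
  rcases (List.range (s + 1)).find? (fun j => decide (cand s (bval lo) j < bval hi)) with _ | j
  · rfl
  · exact bval_candB (h1 j)

/-! ### Lists and sets -/

section lists

variable (Ns : List (List ℕ))

/-- the family of move sets -/
def famF : Finset (Finset ℕ) := (Ns.map List.toFinset).toFinset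

theorem mem_famF {A : Finset ℕ} : A ∈ famF Ns ↔ ∃ B ∈ Ns, B.toFinset = A := by
  simp [famF]

theorem toFinset_diffL (W A : List ℕ) : (diffL W A).toFinset = W.toFinset \ A.toFinset := by
  ext x
  simp [diffL]

theorem meets_iff (A C : List ℕ) : meets A C = true ↔ (A.toFinset ∩ C.toFinset).Nonempty := by
  simp only [meets, List.any_eq_true, decide_eq_true_eq]
  constructor
  · rintro ⟨x, h1, h2⟩
    exact ⟨x, by simp [h1, h2]⟩
  · rintro ⟨x, hx⟩
    simp only [mem_inter, List.mem_toFinset] at hx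
    exact ⟨x, hx.1, hx.2⟩

theorem stepL_eq (W X : List ℕ) : stepL Ns W X =
    W.filter (fun y => decide (y ∈ stepF (famF Ns) W.toFinset X.toFinset)) := by
  unfold stepL
  apply List.filter_congr
  intro y hy
  rw [Bool.eq_iff_iff]
  simp only [Bool.or_eq_true, decide_eq_true_eq, List.any_eq_true, Bool.and_eq_true, meets_iff,
    mem_stepF, List.mem_toFinset, hy, true_and]
  constructor
  · rintro (h | ⟨A, hA, h1, h2⟩)
    · exact Or.inl h
    · exact Or.inr ⟨A.toFinset, (mem_famF Ns).2 ⟨A, hA, rfl⟩, by simpa using h1, h2⟩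
  · rintro (h | ⟨A, hA, h1, h2⟩)
    · exact Or.inl h
    · obtain ⟨B, hB, rfl⟩ := (mem_famF Ns).1 hA
      exact Or.inr ⟨B, hB, by simpa using h1, h2⟩

theorem toFinset_stepL (W X : List ℕ) :
    (stepL Ns W X).toFinset = stepF (famF Ns) W.toFinset X.toFinset := by
  rw [stepL_eq]
  ext y
  simp only [List.mem_toFinset, List.mem_filter, decide_eq_true_eq]
  constructor
  · exact fun h => h.2
  · intro h
    exact ⟨by simpa using (mem_stepF.1 h).1, h⟩

theorem toFinset_iterate (W : List ℕ) (q k : ℕ) :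
    ((stepL Ns W)^[k] [q]).toFinset = (stepF (famF Ns) W.toFinset)^[k] {q} := by
  induction k with
  | zero => simp
  | succ k ih =>
    rw [Function.iterate_succ_apply', Function.iterate_succ_apply', toFinset_stepL, ih]

theorem toFinset_compL {W : List ℕ} {q : ℕ} (hq : q ∈ W) :
    (compL Ns W q).toFinset = comp (famF Ns) W.toFinset q := by
  unfold compL
  rw [toFinset_iterate]
  exact iterate_stepF (by simpa using hq) (List.toFinset_card_le W)

theorem compL_eq {W : List ℕ} {q : ℕ} (hq : q ∈ W) :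
    compL Ns W q = W.filter (fun y => decide (y ∈ comp (famF Ns) W.toFinset q)) := by
  have hpos : 0 < W.length := List.length_pos_of_mem hq
  have h1 := toFinset_compL Ns hq
  unfold compL at h1 ⊢
  obtain ⟨k, hk⟩ : ∃ k, W.length = k + 1 := ⟨W.length - 1, by omega⟩
  rw [hk, Function.iterate_succ_apply'] at h1 ⊢
  rw [stepL_eq, ← h1, toFinset_stepL]

theorem mem_compL {W : List ℕ} {q y : ℕ} (hq : q ∈ W) :
    y ∈ compL Ns W q ↔ y ∈ comp (famF Ns) W.toFinset q := by
  rw [← toFinset_compL Ns hq, List.mem_toFinset]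

theorem sorted_compL {W : List ℕ} (hW : W.Pairwise (· < ·)) {q : ℕ} (hq : q ∈ W) :
    (compL Ns W q).Pairwise (· < ·) := by
  rw [compL_eq Ns hq]
  exact hW.filter _

theorem sorted_diffL {W : List ℕ} (hW : W.Pairwise (· < ·)) (A : List ℕ) :
    (diffL W A).Pairwise (· < ·) := hW.filter _

theorem nodup_of_sorted {W : List ℕ} (hW : W.Pairwise (· < ·)) : W.Nodup :=
  hW.imp (fun h => Nat.ne_of_lt h)

theorem mem_repsL {W : List ℕ} (hW : W.Pairwise (· < ·)) {q : ℕ} :
    q ∈ repsL Ns W ↔ q ∈ reps (famF Ns) W.toFinset := by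
  simp only [repsL, List.mem_filter, decide_eq_true_eq, mem_reps, List.mem_toFinset]
  refine and_congr_right fun hq => ?_
  have hs := sorted_compL Ns hW hq
  have hqm : q ∈ compL Ns W q := (mem_compL Ns hq).2 (self_mem_comp (by simpa using hq))
  have hm : ∀ y, y ∈ comp (famF Ns) W.toFinset q ↔ y ∈ compL Ns W q := fun y =>
    (mem_compL Ns hq).symm
  simp only [hm]
  rcases hc : compL Ns W q with _ | ⟨h, t⟩
  · rw [hc] at hqm; simp at hqm
  · rw [hc] at hs hqm
    simp only [List.head?_cons, Option.some.injEq]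
    rw [List.pairwise_cons] at hs
    constructor
    · rintro rfl y hy
      rcases List.mem_cons.1 hy with rfl | hy
      · exact le_rfl
      · exact (hs.1 y hy).le
    · intro h'
      rcases List.mem_cons.1 hqm with h1 | h1
      · exact h1.symm
      · have := hs.1 q h1
        have := h' h (by simp)
        omega

theorem toFinset_repsL {W : List ℕ} (hW : W.Pairwise (· < ·)) :
    (repsL Ns W).toFinset = reps (famF Ns) W.toFinset := by
  ext q
  rw [List.mem_toFinset, mem_repsL Ns hW]

theorem nodup_repsL {W : List ℕ} (hW : W.Pairwise (· < ·)) : (repsL Ns W).Nodup :=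
  (nodup_of_sorted hW).filter _

theorem bval_foldl_addB (w : ℕ) (h : ℕ → List Bool) (l : List ℕ) : ∀ a : List Bool,
    bval a < 2 ^ w → bval (l.foldl (fun acc q => addB w acc (h q)) a) =
      (bval a + (l.map (fun q => bval (h q))).sum) % 2 ^ w := by
  induction l with
  | nil =>
    intro a ha
    simp [Nat.mod_eq_of_lt ha]
  | cons q l ih =>
    intro a _
    rw [List.foldl_cons, ih _ (by rw [bval_addB]; exact Nat.mod_lt _ (by positivity)), bval_addB,
      List.map_cons, List.sum_cons, Nat.mod_add_mod, add_assoc]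

theorem bval_sumB {T : List (List ℕ × List Bool)} {w s : ℕ} {W : List ℕ}
    (hW : W.Pairwise (· < ·)) (hs : W.toFinset.card ≤ s) (hc : Cover (famF Ns) W.toFinset)
    (hT : ∀ q ∈ repsL Ns W, bval (look T (compL Ns W q)) =
      val (famF Ns) s (comp (famF Ns) W.toFinset q))
    (hw : val (famF Ns) s W.toFinset < 2 ^ w) :
    bval (sumB Ns T w W) = val (famF Ns) s W.toFinset := by
  unfold sumB
  rw [bval_foldl_addB w _ _ _ (by simp)]
  have h1 : (repsL Ns W).map (fun q => bval (look T (compL Ns W q))) =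
      (repsL Ns W).map (fun q => val (famF Ns) s (comp (famF Ns) W.toFinset q)) :=
    List.map_congr_left hT
  rw [h1, ← List.sum_toFinset _ (nodup_repsL Ns hW), toFinset_repsL Ns hW, ← val_sum hs hc,
    bval_nil, zero_add]
  exact Nat.mod_eq_of_lt hw

/-- a bound for the value -/
theorem val_le {F : Finset (Finset ℕ)} {s : ℕ} (n : ℕ) : ∀ W : Finset ℕ, W.card ≤ n →
    W.card ≤ s → Cover F W → val F s W ≤ 2 * W.card * 2 ^ s := by
  induction n with
  | zero =>
    intro W hW _ _
    have : W = ∅ := card_eq_zero.1 (Nat.le_zero.1 hW)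
    subst this
    simp [val_empty]
  | succ n ih =>
    intro W hn hs hc
    rcases W.eq_empty_or_nonempty with h0 | hne
    · subst h0
      simp [val_empty]
    obtain ⟨P, hP, h⟩ := exists_lov s hc hne
    have h1 := (val_spec hs hc hne).lt'
    have h2 := card_opts hP
    have h3 := ih P (by omega) (by omega) (hc.opts hP)
    rw [← h] at h1
    have h4 : 2 * P.card * 2 ^ s + 2 * 2 ^ s ≤ 2 * W.card * 2 ^ s := by
      calc 2 * P.card * 2 ^ s + 2 * 2 ^ s = 2 * (P.card + 1) * 2 ^ s := by ring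
        _ ≤ _ := Nat.mul_le_mul_right _ (by omega)
    omega

theorem width_bound (n : ℕ) : (2 * n + 3) * 2 ^ n < 2 ^ (2 * n + 2) := by
  have h1 : n + 1 ≤ 2 ^ n := by
    have := Nat.lt_two_pow_self (n := n)
    omega
  have h2 : 2 ^ (2 * n + 2) = (2 ^ n * 4) * 2 ^ n := by
    rw [show 2 * n + 2 = n + 2 + n by ring, pow_add, pow_add]
    norm_num
  rw [h2]
  exact Nat.mul_lt_mul_of_pos_right (by omega) (by positivity)

theorem toFinset_card_of_sorted {W : List ℕ} (hW : W.Pairwise (· < ·)) :
    W.toFinset.card = W.length := List.toFinset_card_of_nodup (nodup_of_sorted hW)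

/-- correctness of one evaluation -/
theorem bval_evalB {T : List (List ℕ × List Bool)} {n : ℕ} {C : List ℕ}
    (hC : C.Pairwise (· < ·)) (hs : C.toFinset.card ≤ n) (hc : Cover (famF Ns) C.toFinset)
    (hT : ∀ A ∈ Ns, meets A C = true → ∀ q ∈ repsL Ns (diffL C A),
      bval (look T (compL Ns (diffL C A) q)) =
        val (famF Ns) n (comp (famF Ns) (diffL C A).toFinset q)) :
    bval (evalB Ns T (2 * n + 2) n C) = val (famF Ns) n C.toFinset := by
  unfold evalB
  by_cases h0 : C = []
  · subst h0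
    simp [val_empty]
  rw [if_neg h0]
  have hne : C.toFinset.Nonempty := by
    rw [Finset.nonempty_iff_ne_empty]
    simpa using h0
  set F := famF Ns with hF
  have hwb := width_bound n
  have hval : ∀ W : Finset ℕ, W ⊆ C.toFinset → val F n W < 2 ^ (2 * n + 2) := by
    intro W hW
    have h1 := card_le_card hW
    have h2 := val_le (F := F) (s := n) _ W le_rfl (by omega) (hc.mono hW)
    have h3 : 2 * W.card * 2 ^ n ≤ (2 * n + 3) * 2 ^ n := Nat.mul_le_mul_right _ (by omega)
    omega
  -- values of the options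
  have hopt : ∀ A ∈ Ns, meets A C = true →
      bval (sumB Ns T (2 * n + 2) (diffL C A)) = val F n (C.toFinset \ A.toFinset) := by
    intro A hA hAC
    have hsub : (diffL C A).toFinset ⊆ C.toFinset := by
      rw [toFinset_diffL]; exact sdiff_subset
    rw [bval_sumB Ns (sorted_diffL hC A) ((card_le_card hsub).trans hs) (hc.mono hsub)
      (hT A hA hAC) (hval _ hsub), toFinset_diffL]
  have hin : ∀ A ∈ Ns, meets A C = true → C.toFinset \ A.toFinset ∈ opts F C.toFinset := by
    intro A hA hAC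
    exact mem_opts.2 ⟨A.toFinset, (mem_famF Ns).2 ⟨A, hA, rfl⟩, (meets_iff A C).1 hAC, rfl⟩
  have hout : ∀ P ∈ opts F C.toFinset, ∃ x ∈ valsB Ns T (2 * n + 2) C, bval x = val F n P := by
    intro P hP
    obtain ⟨A', hA', hAC, rfl⟩ := mem_opts.1 hP
    obtain ⟨A, hA, rfl⟩ := (mem_famF Ns).1 hA'
    have hAC' : meets A C = true := (meets_iff A C).2 hAC
    refine ⟨_, List.mem_map.2 ⟨A, List.mem_filter.2 ⟨hA, hAC'⟩, rfl⟩, hopt A hA hAC'⟩
  have hall : ∀ x ∈ valsB Ns T (2 * n + 2) C, ∃ P ∈ opts F C.toFinset, bval x = val F n P := by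
    intro x hx
    obtain ⟨A, hA, rfl⟩ := List.mem_map.1 hx
    obtain ⟨hA, hAC⟩ := List.mem_filter.1 hA
    exact ⟨_, hin A hA hAC, hopt A hA hAC⟩
  have hlt : ∀ x ∈ valsB Ns T (2 * n + 2) C, bval x < 2 ^ (2 * n + 2) := by
    intro x hx
    obtain ⟨P, hP, h⟩ := hall x hx
    rw [h]
    obtain ⟨A', _, _, rfl⟩ := mem_opts.1 hP
    exact hval _ sdiff_subset
  have hmax : bval (maxB (2 * n + 2) (valsB Ns T (2 * n + 2) C)) = hiv F n C.toFinset := by
    refine bval_maxB hlt ?_ ?_
    · intro x hx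
      obtain ⟨P, hP, h⟩ := hall x hx
      rw [h]
      exact le_hiv hP
    · obtain ⟨P, hP, h⟩ := exists_hiv n hc hne
      obtain ⟨x, hx, h'⟩ := hout P hP
      exact ⟨x, hx, h'.trans h⟩
  have hmin : bval (minB (2 * n + 2) (valsB Ns T (2 * n + 2) C)) = lov F n C.toFinset := by
    refine bval_minB hlt ?_ ?_
    · intro x hx
      obtain ⟨P, hP, h⟩ := hall x hx
      rw [h]
      exact lov_le hP
    · obtain ⟨P, hP, h⟩ := exists_lov n hc hne
      obtain ⟨x, hx, h'⟩ := hout P hP
      exact ⟨x, hx, h'.trans h⟩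
  have h2n : 0 < 2 ^ n := by positivity
  have hb1 : hiv F n C.toFinset ≤ 2 * n * 2 ^ n := by
    obtain ⟨P, hP, h⟩ := exists_hiv n hc hne
    have h2 := card_opts hP
    rw [← h]
    have h3 := val_le (F := F) (s := n) _ P le_rfl (by omega) (hc.opts hP)
    exact h3.trans (Nat.mul_le_mul_right _ (by omega))
  have hb2 : lov F n C.toFinset ≤ 2 * n * 2 ^ n := by
    obtain ⟨P, hP, h⟩ := exists_lov n hc hne
    have h2 := card_opts hP
    rw [← h]
    have h3 := val_le (F := F) (s := n) _ P le_rfl (by omega) (hc.opts hP)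
    exact h3.trans (Nat.mul_le_mul_right _ (by omega))
  have hwb' : (2 * n + 3) * 2 ^ n = 2 * n * 2 ^ n + 3 * 2 ^ n := by ring
  have htwo : bval (List.replicate (n + 1) false ++ [true]) = 2 * 2 ^ n := by
    rw [bval_append, bval_replicate_false, List.length_replicate]
    simp [pow_succ, mul_comm]
  have hhi : bval (addB (2 * n + 2) (minB (2 * n + 2) (valsB Ns T (2 * n + 2) C))
      (List.replicate (n + 1) false ++ [true])) = lov F n C.toFinset + 2 * 2 ^ n := by
    rw [bval_addB, hmin, htwo]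
    exact Nat.mod_eq_of_lt (by omega)
  rw [bval_simpB (by rw [hmax]; omega) (by rw [hhi]; omega), hmax, hhi, ← val_eq F n hne]

/-! ### The family of pieces is closed -/

/-- the residual positions after at most two moves -/
def twoL (U : List ℕ) : List (List ℕ) :=
  U :: (Ns.map (fun A => diffL U A) ++
    Ns.flatMap (fun A => Ns.map (fun B => diffL (diffL U A) B)))

theorem mem_famL {U C : List ℕ} :
    C ∈ famL Ns U ↔ ∃ W ∈ twoL Ns U, ∃ q ∈ W, C = compL Ns W q := by
  simp only [famL, twoL, List.mem_flatMap, List.mem_map]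
  constructor
  · rintro ⟨W, hW, q, hq, rfl⟩
    exact ⟨W, hW, q, hq, rfl⟩
  · rintro ⟨W, hW, q, hq, rfl⟩
    exact ⟨W, hW, q, hq, rfl⟩

theorem mem_twoL {U W : List ℕ} : W ∈ twoL Ns U ↔ W = U ∨ (∃ A ∈ Ns, W = diffL U A) ∨
    ∃ A ∈ Ns, ∃ B ∈ Ns, W = diffL (diffL U A) B := by
  simp only [twoL, List.mem_cons, List.mem_append, List.mem_map, List.mem_flatMap]
  constructor
  · rintro (h | ⟨A, hA, rfl⟩ | ⟨A, hA, B, hB, rfl⟩)
    · exact Or.inl h
    · exact Or.inr (Or.inl ⟨A, hA, rfl⟩)
    · exact Or.inr (Or.inr ⟨A, hA, B, hB, rfl⟩)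
  · rintro (h | ⟨A, hA, rfl⟩ | ⟨A, hA, B, hB, rfl⟩)
    · exact Or.inl h
    · exact Or.inr (Or.inl ⟨A, hA, rfl⟩)
    · exact Or.inr (Or.inr ⟨A, hA, B, hB, rfl⟩)

theorem sorted_twoL {U W : List ℕ} (hU : U.Pairwise (· < ·)) (hW : W ∈ twoL Ns U) :
    W.Pairwise (· < ·) := by
  rcases (mem_twoL Ns).1 hW with rfl | ⟨A, hA, rfl⟩ | ⟨A, hA, B, hB, rfl⟩
  · exact hU
  · exact sorted_diffL hU A
  · exact sorted_diffL (sorted_diffL hU A) B

theorem subset_twoL {U W : List ℕ} (hW : W ∈ twoL Ns U) : W.toFinset ⊆ U.toFinset := by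
  rcases (mem_twoL Ns).1 hW with rfl | ⟨A, hA, rfl⟩ | ⟨A, hA, B, hB, rfl⟩
  · exact le_refl _
  · rw [toFinset_diffL]; exact sdiff_subset
  · rw [toFinset_diffL, toFinset_diffL]; exact sdiff_subset.trans sdiff_subset

theorem list_ext_sorted {L M : List ℕ} (hL : L.Pairwise (· < ·)) (hM : M.Pairwise (· < ·))
    (h : L.toFinset = M.toFinset) : L = M := by
  refine (List.perm_of_nodup_nodup_toFinset_eq (nodup_of_sorted hL) (nodup_of_sorted hM)
    h).eq_of_pairwise ?_ hL hM
  intro a b _ _ h1 h2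
  omega

theorem famL_closed {U : List ℕ} (hU : U.Pairwise (· < ·))
    (h3 : ThreeTwo (famF Ns) U.toFinset) {C A : List ℕ} (hC : C ∈ famL Ns U) (hA : A ∈ Ns)
    {q : ℕ} (hq : q ∈ diffL C A) : compL Ns (diffL C A) q ∈ famL Ns U := by
  obtain ⟨W, hW, q₁, hq₁, rfl⟩ := (mem_famL Ns).1 hC
  have hWs := sorted_twoL Ns hU hW
  have hCs := sorted_compL Ns hWs hq₁
  have hDs := sorted_diffL hCs A
  have hqF : q ∈ comp (famF Ns) W.toFinset q₁ \ A.toFinset := by
    rw [← toFinset_compL Ns hq₁, ← toFinset_diffL]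
    simpa using hq
  have h4 : (compL Ns (diffL (compL Ns W q₁) A) q).toFinset =
      comp (famF Ns) (W.toFinset \ A.toFinset) q := by
    rw [toFinset_compL Ns hq, toFinset_diffL, toFinset_compL Ns hq₁]
    exact comp_comp_sdiff hqF
  have hqW : q ∈ W.toFinset \ A.toFinset :=
    sdiff_subset_sdiff (comp_subset q₁) (le_refl _) hqF
  -- it suffices to find a member of `twoL` with the same piece
  have fin : ∀ W' ∈ twoL Ns U, q ∈ W' →
      comp (famF Ns) (W.toFinset \ A.toFinset) q = comp (famF Ns) W'.toFinset q →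
      compL Ns (diffL (compL Ns W q₁) A) q ∈ famL Ns U := by
    intro W' hW' hqW' h5
    refine (mem_famL Ns).2 ⟨W', hW', q, hqW', ?_⟩
    refine list_ext_sorted (sorted_compL Ns hDs hq)
      (sorted_compL Ns (sorted_twoL Ns hU hW') hqW') ?_
    rw [h4, h5, toFinset_compL Ns hqW']
  rcases (mem_twoL Ns).1 hW with h6 | ⟨A₁, hA₁, h6⟩ | ⟨A₁, hA₁, A₂, hA₂, h6⟩
  · refine fin (diffL U A) ((mem_twoL Ns).2 (Or.inr (Or.inl ⟨A, hA, rfl⟩))) ?_ ?_
    · rw [h6, ← toFinset_diffL] at hqW
      simpa using hqW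
    · rw [h6, toFinset_diffL]
  · refine fin (diffL (diffL U A₁) A)
      ((mem_twoL Ns).2 (Or.inr (Or.inr ⟨A₁, hA₁, A, hA, rfl⟩))) ?_ ?_
    · rw [h6, ← toFinset_diffL] at hqW
      simpa using hqW
    · rw [h6, toFinset_diffL (diffL U A₁)]
  · rw [h6, toFinset_diffL, toFinset_diffL] at hqW
    have h7 := h3 A₁.toFinset ((mem_famF Ns).2 ⟨A₁, hA₁, rfl⟩) A₂.toFinset
      ((mem_famF Ns).2 ⟨A₂, hA₂, rfl⟩) A.toFinset ((mem_famF Ns).2 ⟨A, hA, rfl⟩) q hqW
    have h8 : W.toFinset = (U.toFinset \ A₁.toFinset) \ A₂.toFinset := by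
      rw [h6, toFinset_diffL, toFinset_diffL]
    simp only [mem_sdiff] at hqW
    obtain ⟨⟨⟨hq0, hq1⟩, hq2⟩, hq3⟩ := hqW
    rw [List.mem_toFinset] at hq0 hq1 hq2 hq3
    rcases h7 with h7 | h7 | h7
    · refine fin (diffL (diffL U A₁) A₂)
        ((mem_twoL Ns).2 (Or.inr (Or.inr ⟨A₁, hA₁, A₂, hA₂, rfl⟩))) ?_ ?_
      · simp [diffL, hq0, hq1, hq2]
      · rw [h8, h7, toFinset_diffL, toFinset_diffL]
    · refine fin (diffL (diffL U A₁) A)
        ((mem_twoL Ns).2 (Or.inr (Or.inr ⟨A₁, hA₁, A, hA, rfl⟩))) ?_ ?_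
      · simp [diffL, hq0, hq1, hq3]
      · rw [h8, h7, toFinset_diffL, toFinset_diffL]
    · refine fin (diffL (diffL U A₂) A)
        ((mem_twoL Ns).2 (Or.inr (Or.inr ⟨A₂, hA₂, A, hA, rfl⟩))) ?_ ?_
      · simp [diffL, hq0, hq2, hq3]
      · rw [h8, h7, toFinset_diffL, toFinset_diffL]

/-! ### The table -/

theorem tabB_eq (U : List ℕ) (w s k : ℕ) : ∃ g : List ℕ → List Bool,
    tabB Ns U w s k = (famL Ns U).map (fun C => (C, g C)) := by
  induction k with
  | zero => exact ⟨fun _ => [], rfl⟩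
  | succ k ih =>
    obtain ⟨g, hg⟩ := ih
    refine ⟨fun C => evalB Ns (tabB Ns U w s k) w s C, ?_⟩
    change (roundB Ns w s)^[k + 1] _ = _
    rw [Function.iterate_succ_apply']
    change roundB Ns w s (tabB Ns U w s k) = _
    unfold roundB
    conv_lhs => rw [hg]
    rw [List.map_map, ← hg]
    rfl

theorem look_map {fam : List (List ℕ)} (g : List ℕ → List Bool) {C : List ℕ} (h : C ∈ fam) :
    look (fam.map (fun C => (C, g C))) C = g C := by
  unfold look
  have : (fam.map (fun C => (C, g C))).find? (fun p => decide (C = p.1)) = some (C, g C) := by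
    induction fam with
    | nil => simp at h
    | cons D fam ih =>
      rw [List.map_cons, List.find?_cons]
      by_cases hD : C = D
      · subst hD; simp
      · simp only [hD, decide_false]
        rcases List.mem_cons.1 h with h | h
        · exact absurd h hD
        · exact ih h
  rw [this]

theorem tabB_correct {U : List ℕ} {n : ℕ} (hU : U.Pairwise (· < ·)) (hn : U.length ≤ n)
    (hc : Cover (famF Ns) U.toFinset) (h3 : ThreeTwo (famF Ns) U.toFinset) (k : ℕ) :
    ∀ C ∈ famL Ns U, C.toFinset.card ≤ k →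
      bval (look (tabB Ns U (2 * n + 2) n k) C) = val (famF Ns) n C.toFinset := by
  have hsub : ∀ C ∈ famL Ns U, C.Pairwise (· < ·) ∧ C.toFinset ⊆ U.toFinset := by
    intro C hC
    obtain ⟨W, hW, q, hq, rfl⟩ := (mem_famL Ns).1 hC
    refine ⟨sorted_compL Ns (sorted_twoL Ns hU hW) hq, ?_⟩
    rw [toFinset_compL Ns hq]
    exact (comp_subset q).trans (subset_twoL Ns hW)
  have hUc : U.toFinset.card ≤ n := (List.toFinset_card_le U).trans hn
  induction k with
  | zero =>
    intro C hC hk
    have h4 : C.toFinset = ∅ := card_eq_zero.1 (Nat.le_zero.1 hk)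
    change bval (look ((famL Ns U).map (fun C => (C, []))) C) = _
    rw [look_map (fun _ => []) hC, h4]
    rfl
  | succ k ih =>
    intro C hC hk
    have h4 : look (tabB Ns U (2 * n + 2) n (k + 1)) C =
        evalB Ns (tabB Ns U (2 * n + 2) n k) (2 * n + 2) n C := by
      obtain ⟨g, hg⟩ := tabB_eq Ns U (2 * n + 2) n k
      have h5 : tabB Ns U (2 * n + 2) n (k + 1) =
          (famL Ns U).map (fun C => (C, evalB Ns (tabB Ns U (2 * n + 2) n k) (2 * n + 2) n C)) := by
        change (roundB Ns (2 * n + 2) n)^[k + 1] _ = _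
        rw [Function.iterate_succ_apply']
        change roundB Ns (2 * n + 2) n (tabB Ns U (2 * n + 2) n k) = _
        unfold roundB
        conv_lhs => rw [hg]
        rw [List.map_map, ← hg]
        rfl
      rw [h5]
      exact look_map (fun C => evalB Ns (tabB Ns U (2 * n + 2) n k) (2 * n + 2) n C) hC
    rw [h4]
    obtain ⟨hCs, hCU⟩ := hsub C hC
    refine bval_evalB Ns hCs ((card_le_card hCU).trans hUc) (hc.mono hCU) ?_
    intro A hA hAC q hq
    have hq' : q ∈ diffL C A := List.mem_of_mem_filter hq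
    have h5 := famL_closed Ns hU h3 hC hA hq'
    rw [ih _ h5 ?_, toFinset_compL Ns hq']
    have h6 : (diffL C A).toFinset.card < C.toFinset.card := by
      rw [toFinset_diffL]
      obtain ⟨x, hx⟩ := (meets_iff A C).1 hAC
      rw [mem_inter] at hx
      apply card_lt_card
      exact ⟨sdiff_subset, fun h => (mem_sdiff.1 (h hx.2)).2 hx.1⟩
    have h7 : (compL Ns (diffL C A) q).toFinset.card ≤ (diffL C A).toFinset.card := by
      rw [toFinset_compL Ns hq']
      exact card_le_card (comp_subset q)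
    omega

/-- **Correctness of the algorithm** -/
theorem valB_correct {U : List ℕ} {n : ℕ} (hU : U.Pairwise (· < ·)) (hn : U.length ≤ n)
    (hc : Cover (famF Ns) U.toFinset) (h3 : ThreeTwo (famF Ns) U.toFinset) :
    bval (valB Ns U (2 * n + 2) n n) = val (famF Ns) n U.toFinset := by
  have hUc : U.toFinset.card ≤ n := (List.toFinset_card_le U).trans hn
  refine bval_sumB Ns hU hUc hc ?_ ?_
  · intro q hq
    have hq' : q ∈ U := List.mem_of_mem_filter hq
    have h4 : compL Ns U q ∈ famL Ns U :=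
      (mem_famL Ns).2 ⟨U, (mem_twoL Ns).2 (Or.inl rfl), q, hq', rfl⟩
    rw [tabB_correct Ns hU hn hc h3 n _ h4 ?_, toFinset_compL Ns hq']
    rw [toFinset_compL Ns hq']
    exact (card_le_card (comp_subset q)).trans hUc
  · have h1 := val_le (F := famF Ns) (s := n) _ U.toFinset le_rfl hUc hc
    have h2 := width_bound n
    have h3 : 2 * U.toFinset.card * 2 ^ n ≤ (2 * n + 3) * 2 ^ n :=
      Nat.mul_le_mul_right _ (by omega)
    omega

end lists

end Pool.Agent.Lib.MP_104f04_lc
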