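import Mathlib

/-!
# Binary arithmetic on lists of bits (least significant bit first)
-/

namespace Pool.Agent.Lib.MP_104f04_lc

/-- the number with the given bits -/
def bval : List Bool → ℕ
  | [] => 0
  | b :: l => b.toNat + 2 * bval l

@[simp] theorem bval_nil : bval [] = 0 := rfl
@[simp] theorem bval_cons (b : Bool) (l : List Bool) : bval (b :: l) = b.toNat + 2 * bval l := rfl

theorem bval_append (l m : List Bool) : bval (l ++ m) = bval l + 2 ^ l.length * bval m := by
  induction l with
  | nil => simp
  | cons b l ih =>
    simp only [List.cons_append, bval_cons, ih, List.length_cons, pow_succ]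
    ring

theorem bval_lt (l : List Bool) : bval l < 2 ^ l.length := by
  induction l with
  | nil => simp
  | cons b l ih =>
    simp only [bval_cons, List.length_cons, pow_succ]
    have : b.toNat ≤ 1 := Bool.toNat_le b
    omega

@[simp] theorem bval_replicate_false (n : ℕ) : bval (List.replicate n false) = 0 := by
  induction n with
  | zero => rfl
  | succ n ih => simp [List.replicate_succ, ih]

theorem bval_replicate_true (n : ℕ) : bval (List.replicate n true) + 1 = 2 ^ n := by
  induction n with
  | zero => rfl
  | succ n ih =>
    simp only [List.replicate_succ, bval_cons, Bool.toNat_true, pow_succ]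
    omega

theorem bval_take (l : List Bool) (i : ℕ) : bval (l.take i) = bval l % 2 ^ i := by
  have h1 := bval_append (l.take i) (l.drop i)
  rw [List.take_append_drop] at h1
  by_cases h : i ≤ l.length
  · have h2 : (l.take i).length = i := by simp [h]
    rw [h2] at h1
    have h3 := bval_lt (l.take i)
    rw [h2] at h3
    rw [h1, Nat.add_mul_mod_self_left, Nat.mod_eq_of_lt h3]
  · have h2 : l.take i = l := List.take_of_length_le (by omega)
    rw [h2]
    have h3 := bval_lt l
    have h4 : 2 ^ l.length ≤ 2 ^ i := Nat.pow_le_pow_right (by norm_num) (by omega)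
    exact (Nat.mod_eq_of_lt (by omega)).symm

theorem bval_drop (l : List Bool) (i : ℕ) : bval (l.drop i) = bval l / 2 ^ i := by
  have h1 := bval_append (l.take i) (l.drop i)
  rw [List.take_append_drop] at h1
  by_cases h : i ≤ l.length
  · have h2 : (l.take i).length = i := by simp [h]
    rw [h2] at h1
    have h3 := bval_lt (l.take i)
    rw [h2] at h3
    rw [h1, Nat.add_mul_div_left _ _ (by positivity), Nat.div_eq_of_lt h3, zero_add]
  · have h2 : l.drop i = [] := List.drop_eq_nil_of_le (by omega)
    rw [h2]
    have h3 := bval_lt l
    have h4 : 2 ^ l.length ≤ 2 ^ i := Nat.pow_le_pow_right (by norm_num) (by omega)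
    rw [bval_nil]
    exact (Nat.div_eq_of_lt (by omega)).symm

theorem bval_take_succ (l : List Bool) (i : ℕ) :
    bval (l.take (i + 1)) = bval (l.take i) + 2 ^ i * (l.getD i false).toNat := by
  by_cases h : i < l.length
  · rw [List.take_add_one, bval_append]
    have h1 : (l.take i).length = i := by simp; omega
    rw [h1]
    simp [List.getD, h]
  · rw [List.take_of_length_le (by omega), List.take_of_length_le (by omega)]
    simp [List.getD, h]

/-- one step of the addition -/
def addStep (a b : List Bool) (st : Bool × List Bool) (i : ℕ) : Bool × List Bool :=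
  ((a.getD i false && b.getD i false) || (st.1 && (a.getD i false || b.getD i false)),
    (a.getD i false ^^ (b.getD i false ^^ st.1)) :: st.2)

/-- addition modulo `2 ^ w` -/
def addB (w : ℕ) (a b : List Bool) : List Bool :=
  ((List.range w).foldl (addStep a b) (false, [])).2.reverse

theorem addB_inv (a b : List Bool) (w : ℕ) :
    (((List.range w).foldl (addStep a b) (false, [])).2.length = w) ∧
    bval ((List.range w).foldl (addStep a b) (false, [])).2.reverse +
      2 ^ w * ((List.range w).foldl (addStep a b) (false, [])).1.toNat =
      bval (a.take w) + bval (b.take w) := by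
  induction w with
  | zero => simp
  | succ w ih =>
    rw [List.range_succ, List.foldl_append]
    simp only [List.foldl_cons, List.foldl_nil]
    generalize hst : (List.range w).foldl (addStep a b) (false, []) = st at ih ⊢
    obtain ⟨c, out⟩ := st
    obtain ⟨h1, h2⟩ := ih
    simp only at h1 h2
    simp only [addStep, List.length_cons, List.reverse_cons, bval_append, List.length_reverse, h1,
      bval_take_succ, bval_cons, bval_nil, true_and]
    generalize a.getD w false = x at *
    generalize b.getD w false = y at *
    rw [pow_succ]
    cases x <;> cases y <;> cases c <;> simp at h2 ⊢ <;> omega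

theorem length_addB (w : ℕ) (a b : List Bool) : (addB w a b).length = w := by
  rw [addB, List.length_reverse]
  exact (addB_inv a b w).1

theorem bval_addB (w : ℕ) (a b : List Bool) :
    bval (addB w a b) = (bval a + bval b) % 2 ^ w := by
  have h1 := (addB_inv a b w).2
  have h2 := bval_lt (addB w a b)
  rw [length_addB] at h2
  change bval (addB w a b) + _ = _ at h1
  rw [bval_take, bval_take] at h1
  rw [Nat.add_mod, ← h1, Nat.add_mul_mod_self_left, Nat.mod_eq_of_lt h2]

/-- comparison -/
def ltB (w : ℕ) (a b : List Bool) : Bool :=
  (List.range w).foldl (fun r i => if a.getD i false = b.getD i false then r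
    else b.getD i false) false

theorem ltB_eq' (w : ℕ) (a b : List Bool) :
    ltB w a b = decide (bval (a.take w) < bval (b.take w)) := by
  unfold ltB
  induction w with
  | zero => simp
  | succ w ih =>
    rw [List.range_succ, List.foldl_append]
    simp only [List.foldl_cons, List.foldl_nil]
    rw [ih, bval_take_succ, bval_take_succ]
    have ha : bval (a.take w) < 2 ^ w := by
      rw [bval_take]; exact Nat.mod_lt _ (by positivity)
    have hb : bval (b.take w) < 2 ^ w := by
      rw [bval_take]; exact Nat.mod_lt _ (by positivity)
    generalize a.getD w false = x at *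
    generalize b.getD w false = y at *
    cases x <;> cases y <;> simp <;> omega

theorem ltB_eq {w : ℕ} {a b : List Bool} (ha : bval a < 2 ^ w) (hb : bval b < 2 ^ w) :
    ltB w a b = decide (bval a < bval b) := by
  rw [ltB_eq', bval_take, bval_take, Nat.mod_eq_of_lt ha, Nat.mod_eq_of_lt hb]

/-- maximum -/
def maxB (w : ℕ) (l : List (List Bool)) : List Bool :=
  l.foldl (fun acc x => if ltB w acc x then x else acc) []

/-- minimum -/
def minB (w : ℕ) (l : List (List Bool)) : List Bool :=
  l.foldl (fun acc x => if ltB w x acc then x else acc) (List.replicate w true)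

theorem maxB_aux (w : ℕ) (l : List (List Bool)) (hl : ∀ x ∈ l, bval x < 2 ^ w) :
    ∀ a : List Bool, bval a < 2 ^ w →
      let r := l.foldl (fun acc x => if ltB w acc x then x else acc) a
      bval a ≤ bval r ∧ (∀ x ∈ l, bval x ≤ bval r) ∧ (r = a ∨ r ∈ l) := by
  induction l with
  | nil => intro a _; simp
  | cons x l ih =>
    intro a ha
    have hx := hl x (by simp)
    simp only [List.foldl_cons]
    have hacc : bval (if ltB w a x then x else a) < 2 ^ w := by
      split_ifs
      · exact hx
      · exact ha
    have h := ih (fun y hy => hl y (List.mem_cons_of_mem _ hy)) _ hacc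
    obtain ⟨h1, h2, h3⟩ := h
    rw [ltB_eq ha hx] at h1 h2 h3 ⊢
    by_cases hlt : bval a < bval x
    · simp only [hlt, decide_true, if_true] at h1 h2 h3 ⊢
      refine ⟨by omega, ?_, ?_⟩
      · intro y hy
        rcases List.mem_cons.1 hy with rfl | hy
        · exact h1
        · exact h2 y hy
      · rcases h3 with h3 | h3
        · right; rw [h3]; simp
        · right; exact List.mem_cons_of_mem _ h3
    · simp only [hlt, decide_false, Bool.false_eq_true, if_false] at h1 h2 h3 ⊢
      refine ⟨h1, ?_, ?_⟩
      · intro y hy
        rcases List.mem_cons.1 hy with rfl | hy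
        · exact le_trans (by omega) h1
        · exact h2 y hy
      · rcases h3 with h3 | h3
        · left; exact h3
        · right; exact List.mem_cons_of_mem _ h3

theorem minB_aux (w : ℕ) (l : List (List Bool)) (hl : ∀ x ∈ l, bval x < 2 ^ w) :
    ∀ a : List Bool, bval a < 2 ^ w →
      let r := l.foldl (fun acc x => if ltB w x acc then x else acc) a
      bval r ≤ bval a ∧ (∀ x ∈ l, bval r ≤ bval x) ∧ (r = a ∨ r ∈ l) := by
  induction l with
  | nil => intro a _; simp
  | cons x l ih =>
    intro a ha
    have hx := hl x (by simp)
    simp only [List.foldl_cons]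
    have hacc : bval (if ltB w x a then x else a) < 2 ^ w := by
      split_ifs
      · exact hx
      · exact ha
    have h := ih (fun y hy => hl y (List.mem_cons_of_mem _ hy)) _ hacc
    obtain ⟨h1, h2, h3⟩ := h
    rw [ltB_eq hx ha] at h1 h2 h3 ⊢
    by_cases hlt : bval x < bval a
    · simp only [hlt, decide_true, if_true] at h1 h2 h3 ⊢
      refine ⟨by omega, ?_, ?_⟩
      · intro y hy
        rcases List.mem_cons.1 hy with rfl | hy
        · exact h1
        · exact h2 y hy
      · rcases h3 with h3 | h3
        · right; rw [h3]; simp
        · right; exact List.mem_cons_of_mem _ h3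
    · simp only [hlt, decide_false, Bool.false_eq_true, if_false] at h1 h2 h3 ⊢
      refine ⟨h1, ?_, ?_⟩
      · intro y hy
        rcases List.mem_cons.1 hy with rfl | hy
        · exact le_trans h1 (by omega)
        · exact h2 y hy
      · rcases h3 with h3 | h3
        · left; exact h3
        · right; exact List.mem_cons_of_mem _ h3

/-- `maxB` computes the maximum -/
theorem bval_maxB {w M : ℕ} {l : List (List Bool)} (hl : ∀ x ∈ l, bval x < 2 ^ w)
    (h1 : ∀ x ∈ l, bval x ≤ M) (h2 : ∃ x ∈ l, bval x = M) : bval (maxB w l) = M := by
  have h := maxB_aux w l hl [] (by simp)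
  obtain ⟨_, h3, h4⟩ := h
  obtain ⟨x, hx, hxM⟩ := h2
  have h5 := h3 x hx
  change bval x ≤ bval (maxB w l) at h5
  change (maxB w l = [] ∨ maxB w l ∈ l) at h4
  rcases h4 with h4 | h4
  · rw [h4] at h5 ⊢
    simp only [bval_nil] at h5 ⊢
    omega
  · have := h1 _ h4
    omega

/-- `minB` computes the minimum -/
theorem bval_minB {w m : ℕ} {l : List (List Bool)} (hl : ∀ x ∈ l, bval x < 2 ^ w)
    (h1 : ∀ x ∈ l, m ≤ bval x) (h2 : ∃ x ∈ l, bval x = m) : bval (minB w l) = m := by
  have h0 := bval_replicate_true w
  have h := minB_aux w l hl (List.replicate w true) (by omega)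
  obtain ⟨_, h3, h4⟩ := h
  obtain ⟨x, hx, hxm⟩ := h2
  have h5 := h3 x hx
  change bval (minB w l) ≤ bval x at h5
  change (minB w l = List.replicate w true ∨ minB w l ∈ l) at h4
  rcases h4 with h4 | h4
  · rw [h4] at h5 ⊢
    have := hl x hx
    omega
  · have := h1 _ h4
    omega

/-- conversion to a unary number, with a cap -/
def uval (cap : ℕ) (l : List Bool) : ℕ :=
  l.foldr (fun b acc => min cap (2 * acc + b.toNat)) 0

theorem uval_eq {cap : ℕ} {l : List Bool} (h : bval l ≤ cap) : uval cap l = bval l := by
  induction l with
  | nil => rfl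
  | cons b l ih =>
    simp only [bval_cons] at h
    have h1 := ih (by omega)
    change min cap (2 * uval cap l + b.toNat) = _
    rw [h1, bval_cons]
    omega

end Pool.Agent.Lib.MP_104f04_lc
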