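import Mathlib

/-!
# The domination game: definitions

Positions of the domination game are described by the set `U` of vertices that are not dominated
yet.  A move `v` is legal if the closed neighbourhood of `v` meets `U`, and it turns `U` into
`U \ N[v]`.
-/

namespace Pool.Agent.Lib.MP_104f04_lc

open Finset

/-- The closed neighbourhood `N[v]`. -/
noncomputable def nbhd {V : Type} [Fintype V] (G : SimpleGraph V) (v : V) : Finset V :=
  open Classical in Finset.univ.filter (fun u => u = v ∨ G.Adj v u)

/-- `Ends N k b U`: in the domination game with (closed) neighbourhoods `N`, with `U` the set of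
vertices not dominated yet, and Dominator to move if `b = true`, Staller to move if `b = false`,
Dominator can force that all vertices are dominated after at most `k` further moves. -/
def Ends {V : Type} [DecidableEq V] (N : V → Finset V) : ℕ → Bool → Finset V → Prop
  | 0, _, U => U = ∅
  | k + 1, true, U => U = ∅ ∨ ∃ v, (N v ∩ U).Nonempty ∧ Ends N k false (U \ N v)
  | k + 1, false, U => U = ∅ ∨ ∀ v, (N v ∩ U).Nonempty → Ends N k true (U \ N v)

/-- The number of moves, with optimal play, of the domination game on `G | S`, the graph `G` in
which the vertices of `S` are declared already dominated; Dominator moves first if `b = true`,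
Staller moves first if `b = false`.  So `gameDom G true ∅ = γ_g(G)` and
`gameDom G false ∅ = γ_g'(G)`. -/
noncomputable def gameDom {V : Type} [Fintype V] [DecidableEq V] (G : SimpleGraph V) (b : Bool)
    (S : Finset V) : ℕ :=
  sInf {k | Ends (nbhd G) k b (Finset.univ \ S)}

/-- Proper interval graphs: two vertices are adjacent if and only if their (closed) intervals
meet, and no interval properly contains another. -/
def IsProperInterval {V : Type} (G : SimpleGraph V) : Prop :=
  ∃ l r : V → ℝ, (∀ v, l v ≤ r v) ∧
    (∀ u v, G.Adj u v ↔ u ≠ v ∧ (Set.Icc (l u) (r u) ∩ Set.Icc (l v) (r v)).Nonempty) ∧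
    ∀ u v, ¬ Set.Icc (l u) (r u) ⊂ Set.Icc (l v) (r v)

/-! ### Inputs and outputs of the algorithm, and their codes -/

/-- The simple graph with vertices `0, …, n - 1` and the edges in the list `E`. -/
def graphOf (n : ℕ) (E : List (ℕ × ℕ)) : SimpleGraph (Fin n) :=
  SimpleGraph.fromRel (fun u v => ((u : ℕ), (v : ℕ)) ∈ E)

/-- The set of vertices in the list `S`. -/
def vertexSet (n : ℕ) (S : List ℕ) : Finset (Fin n) :=
  Finset.univ.filter (fun v => (v : ℕ) ∈ S)

/-- the self-delimiting unary code `1 0 1 0 … 1 0 0` of a natural number -/
def codeNat : ℕ → List Bool
  | 0 => [false]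
  | n + 1 => true :: false :: codeNat n

/-- the code of a list: `1` before each entry, `0` at the end -/
def codeList {α : Type} (c : α → List Bool) : List α → List Bool
  | [] => [false]
  | a :: l => true :: (c a ++ codeList c l)

/-- the code of a pair -/
def codePair {α β : Type} (c : α → List Bool) (d : β → List Bool) (p : α × β) : List Bool :=
  true :: (c p.1 ++ d p.2)

/-- the code of an input: number of vertices, list of edges, list of the vertices that are
declared already dominated -/
def codeInput : (ℕ × List (ℕ × ℕ)) × List ℕ → List Bool :=
  codePair (codePair codeNat (codeList (codePair codeNat codeNat))) (codeList codeNat)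

/-- the code of an output: two natural numbers -/
def codeOutput : ℕ × ℕ → List Bool := codePair codeNat codeNat

end Pool.Agent.Lib.MP_104f04_lc
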