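import Pool.Agent.Lib.MP_104f04_lc.Poly

/-!
# The algorithm for proper interval graphs
-/

namespace Pool.Agent.Lib.MP_104f04_lc

open Finset Pool.Agent.PolyTime

/-! ### Codes -/

theorem codeNat_eq (n : ℕ) : codeNat n = (enc n).bits := by
  induction n with
  | zero => rfl
  | succ n ih => simp [codeNat, ih, Sx.bits]

theorem codeList_eq {α : Type} [SCode α] {c : α → List Bool} (hc : ∀ a, c a = (enc a).bits)
    (l : List α) : codeList c l = (enc l).bits := by
  induction l with
  | nil => rfl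
  | cons a l ih => simp [codeList, ih, hc, Sx.bits]

theorem codePair_eq {α β : Type} [SCode α] [SCode β] {c : α → List Bool} {d : β → List Bool}
    (hc : ∀ a, c a = (enc a).bits) (hd : ∀ b, d b = (enc b).bits) (p : α × β) :
    codePair c d p = (enc p).bits := by
  rcases p with ⟨a, b⟩
  simp [codePair, hc, hd, Sx.bits]

theorem codeInput_eq (x : (ℕ × List (ℕ × ℕ)) × List ℕ) : codeInput x = (enc x).bits :=
  codePair_eq (codePair_eq codeNat_eq (codeList_eq (codePair_eq codeNat_eq codeNat_eq)))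
    (codeList_eq codeNat_eq) x

theorem codeOutput_eq (x : ℕ × ℕ) : codeOutput x = (enc x).bits :=
  codePair_eq codeNat_eq codeNat_eq x

/-! ### The algorithm -/

/-- the closed neighbourhood of `i` -/
def nbrL (n : ℕ) (L : List (ℕ × ℕ)) (i : ℕ) : List ℕ :=
  (List.range n).filter (fun j => decide (j = i) || (decide ((i, j) ∈ L) || decide ((j, i) ∈ L)))

/-- all closed neighbourhoods -/
def nbsL (n : ℕ) (L : List (ℕ × ℕ)) : List (List ℕ) := (List.range n).map (nbrL n L)

/-- the vertices that are not dominated yet -/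
def undL (n : ℕ) (S : List ℕ) : List ℕ := (List.range n).filter (fun j => !decide (j ∈ S))

/-- the value, as a list of bits -/
def mainV (x : (ℕ × List (ℕ × ℕ)) × List ℕ) : List Bool :=
  valB (nbsL x.1.1 x.1.2) (undL x.1.1 x.2) (2 * x.1.1 + 2) x.1.1 x.1.1

/-- the algorithm -/
def mainF (x : (ℕ × List (ℕ × ℕ)) × List ℕ) : ℕ × ℕ :=
  (uval (2 * x.1.1 + 2) ((mainV x).drop x.1.1),
    uval (2 * x.1.1 + 2)
      ((addB (2 * x.1.1 + 2) (mainV x) (List.replicate x.1.1 true)).drop x.1.1))

theorem ptime_nbsL : PTime (fun x : (ℕ × List (ℕ × ℕ)) × List ℕ => nbsL x.1.1 x.1.2) := by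
  have hn : PTime (fun x : (ℕ × List (ℕ × ℕ)) × List ℕ => x.1.1) := PTime.fst.comp PTime.fst
  have hL : PTime (fun x : (ℕ × List (ℕ × ℕ)) × List ℕ => x.1.2) := PTime.snd.comp PTime.fst
  refine PTime.map (f := fun (x : (ℕ × List (ℕ × ℕ)) × List ℕ) i => nbrL x.1.1 x.1.2 i)
    (PTime.range hn) ?_
  refine PTime.filter (p := fun (q : ((ℕ × List (ℕ × ℕ)) × List ℕ) × ℕ) j =>
    decide (j = q.2) || (decide ((q.2, j) ∈ q.1.1.2) || decide ((j, q.2) ∈ q.1.1.2)))
    (PTime.range (hn.comp PTime.fst)) ?_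
  have h1 : PTime (fun q : (((ℕ × List (ℕ × ℕ)) × List ℕ) × ℕ) × ℕ => q.2) := PTime.snd
  have h2 : PTime (fun q : (((ℕ × List (ℕ × ℕ)) × List ℕ) × ℕ) × ℕ => q.1.2) :=
    PTime.snd.comp PTime.fst
  have h3 : PTime (fun q : (((ℕ × List (ℕ × ℕ)) × List ℕ) × ℕ) × ℕ => q.1.1.1.2) :=
    hL.comp (PTime.fst.comp PTime.fst)
  have h4 := PTime.or (PTime.eq h1 h2) (PTime.or (PTime.mem (PTime.pair h2 h1) h3)
    (PTime.mem (PTime.pair h1 h2) h3))
  exact h4.of_eq fun q => by congr

theorem ptime_undL : PTime (fun x : (ℕ × List (ℕ × ℕ)) × List ℕ => undL x.1.1 x.2) :=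
  PTime.filter (p := fun (x : (ℕ × List (ℕ × ℕ)) × List ℕ) j => !decide (j ∈ x.2))
    (PTime.range (PTime.fst.comp PTime.fst))
    (PTime.not (PTime.mem PTime.snd (PTime.snd.comp PTime.fst)))

theorem ptime_mainF : PTime mainF := by
  have hn : PTime (fun x : (ℕ × List (ℕ × ℕ)) × List ℕ => x.1.1) := PTime.fst.comp PTime.fst
  have hw : PTime (fun x : (ℕ × List (ℕ × ℕ)) × List ℕ => 2 * x.1.1 + 2) :=
    PTime.add (PTime.mul (PTime.const 2) hn) (PTime.const 2)
  have hV : PTime mainV := PT.valB ptime_nbsL ptime_undL hw hn hn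
  exact PTime.pair (PT.uval hw (PTime.drop hn hV))
    (PT.uval hw (PTime.drop hn (PT.addB hw hV (PTime.replicate hn (PTime.const true)))))

theorem tm_mainF : Nonempty (Turing.TM2ComputableInPolyTime codeInput codeOutput mainF) := by
  have e1 : codeInput = fun x : (ℕ × List (ℕ × ℕ)) × List ℕ => (enc x).bits :=
    funext codeInput_eq
  have e2 : codeOutput = fun x : ℕ × ℕ => (enc x).bits := funext codeOutput_eq
  rw [e1, e2]
  exact ptime_mainF.exists_tm

/-! ### Correctness -/

theorem sInf_lt_mul {v q : ℕ} (hq : 0 < q) : sInf {k | v < (k + 1) * q} = v / q := by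
  have h1 := Nat.div_add_mod v q
  have h2 := Nat.mod_lt v hq
  apply le_antisymm
  · apply Nat.sInf_le
    show v < (v / q + 1) * q
    nlinarith
  · apply le_csInf
    · exact ⟨v / q, by show v < (v / q + 1) * q; nlinarith⟩
    · intro k hk
      have hk' : v < (k + 1) * q := hk
      have := (Nat.div_lt_iff_lt_mul hq).2 hk'
      omega

theorem sInf_le_mul {v q : ℕ} (hq : 0 < q) : sInf {k | v ≤ k * q} = (v + (q - 1)) / q := by
  have key : ∀ k, v ≤ k * q ↔ (v + (q - 1)) / q ≤ k := by
    intro k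
    have h1 := Nat.div_lt_iff_lt_mul hq (x := v + (q - 1)) (y := k + 1)
    rw [Nat.succ_mul] at h1
    omega
  have : {k | v ≤ k * q} = Set.Ici ((v + (q - 1)) / q) := by
    ext k
    simp [key]
  rw [this]
  exact csInf_Ici

theorem sorted_range_filter (n : ℕ) (p : ℕ → Bool) :
    ((List.range n).filter p).Pairwise (· < ·) :=
  List.pairwise_lt_range.filter p

/-- on a family with the two structural properties the algorithm is correct -/
theorem mainF_correct_aux {n : ℕ} {L : List (ℕ × ℕ)} {S : List ℕ}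
    (hM : MaxNbr (famF (nbsL n L)))
    (h3 : ThreeTwo (famF (nbsL n L)) (undL n S).toFinset) :
    mainF ((n, L), S) =
      (sInf {k | E (famF (nbsL n L)) k true (undL n S).toFinset},
        sInf {k | E (famF (nbsL n L)) k false (undL n S).toFinset}) := by
  have hU : (undL n S).Pairwise (· < ·) := sorted_range_filter n _
  have hlen : (undL n S).length ≤ n := by
    have := List.length_filter_le (fun j => !decide (j ∈ S)) (List.range n)
    simpa [undL] using this
  have hcard : (undL n S).toFinset.card ≤ n := (List.toFinset_card_le _).trans hlen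
  have hc : Cover (famF (nbsL n L)) (undL n S).toFinset := by
    intro u hu
    have hu' : u < n := by
      rw [List.mem_toFinset] at hu
      have := List.mem_of_mem_filter hu
      simpa using this
    refine ⟨(nbrL n L u).toFinset, (mem_famF _).2 ⟨nbrL n L u, ?_, rfl⟩, ?_⟩
    · exact List.mem_map.2 ⟨u, by simpa using hu', rfl⟩
    · simp [nbrL, hu']
  have hE := E_iff hM n _ (undL n S).toFinset le_rfl hcard hc
  have hv := valB_correct (nbsL n L) hU hlen hc h3
  have hq : 0 < 2 ^ n := by positivity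
  have hle := val_le (F := famF (nbsL n L)) (s := n) _ _ le_rfl hcard hc
  have hle' : val (famF (nbsL n L)) n (undL n S).toFinset ≤ 2 * n * 2 ^ n :=
    hle.trans (Nat.mul_le_mul_right _ (by omega))
  simp only [hE]
  rw [sInf_lt_mul hq, sInf_le_mul hq]
  set v := val (famF (nbsL n L)) n (undL n S).toFinset with hvdef
  have hmv : bval (mainV ((n, L), S)) = v := hv
  have hd : v / 2 ^ n ≤ 2 * n := by
    rw [← Nat.lt_succ_iff, Nat.div_lt_iff_lt_mul hq, Nat.succ_mul]
    omega
  have hd' : (v + (2 ^ n - 1)) / 2 ^ n ≤ 2 * n := by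
    rw [← Nat.lt_succ_iff, Nat.div_lt_iff_lt_mul hq, Nat.succ_mul]
    omega
  have hwb := width_bound n
  have hwb' : (2 * n + 3) * 2 ^ n = 2 * n * 2 ^ n + 3 * 2 ^ n := by ring
  have hone := bval_replicate_true n
  have hadd : bval (addB (2 * n + 2) (mainV ((n, L), S)) (List.replicate n true)) =
      v + (2 ^ n - 1) := by
    rw [bval_addB, hmv]
    have : bval (List.replicate n true) = 2 ^ n - 1 := by omega
    rw [this]
    exact Nat.mod_eq_of_lt (by omega)
  unfold mainF
  refine Prod.ext ?_ ?_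
  · show uval (2 * n + 2) ((mainV ((n, L), S)).drop n) = v / 2 ^ n
    rw [uval_eq (by rw [bval_drop, hmv]; omega), bval_drop, hmv]
  · show uval (2 * n + 2)
      ((addB (2 * n + 2) (mainV ((n, L), S)) (List.replicate n true)).drop n) = _
    rw [uval_eq (by rw [bval_drop, hadd]; omega), bval_drop, hadd]

/-- translation from the graph on `Fin n` to lists of natural numbers -/
theorem ends_graph (n : ℕ) (L : List (ℕ × ℕ)) (S : List ℕ) (k : ℕ) (b : Bool) :
    Ends (nbhd (graphOf n L)) k b (Finset.univ \ vertexSet n S) ↔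
      E (famF (nbsL n L)) k b (undL n S).toFinset := by
  rw [ends_iff, ← E_map Fin.valEmbedding]
  have h1 : (univ.image (nbhd (graphOf n L))).image (Finset.map Fin.valEmbedding) =
      famF (nbsL n L) := by
    have key : ∀ i : Fin n, (nbhd (graphOf n L) i).map Fin.valEmbedding =
        (nbrL n L i).toFinset := by
      intro i
      ext j
      simp only [nbhd, mem_map, mem_filter, mem_univ, true_and, Fin.valEmbedding_apply, nbrL,
        List.mem_toFinset, List.mem_filter, List.mem_range, Bool.or_eq_true, decide_eq_true_eq,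
        graphOf, SimpleGraph.fromRel_adj]
      constructor
      · rintro ⟨j', hj', rfl⟩
        refine ⟨j'.2, ?_⟩
        rcases hj' with rfl | ⟨_, h | h⟩
        · exact Or.inl rfl
        · exact Or.inr (Or.inl h)
        · exact Or.inr (Or.inr h)
      · rintro ⟨hj, h⟩
        refine ⟨⟨j, hj⟩, ?_, rfl⟩
        by_cases hij : (⟨j, hj⟩ : Fin n) = i
        · exact Or.inl hij
        · have hij' : j ≠ (i : ℕ) := fun h' => hij (Fin.ext h')
          right
          refine ⟨fun h' => hij h'.symm, ?_⟩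
          rcases h with h | h | h
          · exact absurd h hij'
          · exact Or.inl h
          · exact Or.inr h
    ext A
    rw [mem_famF]
    simp only [mem_image, mem_univ, true_and, nbsL, List.mem_map, List.mem_range]
    constructor
    · rintro ⟨_, ⟨i, rfl⟩, rfl⟩
      exact ⟨_, ⟨i, i.2, rfl⟩, (key i).symm⟩
    · rintro ⟨_, ⟨i, hi, rfl⟩, rfl⟩
      exact ⟨_, ⟨⟨i, hi⟩, rfl⟩, key ⟨i, hi⟩⟩
  have h2 : (Finset.univ \ vertexSet n S).map Fin.valEmbedding = (undL n S).toFinset := by
    ext j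
    simp only [mem_map, mem_sdiff, mem_univ, true_and, vertexSet, mem_filter,
      Fin.valEmbedding_apply, undL, List.mem_toFinset, List.mem_filter, List.mem_range,
      Bool.not_eq_true', decide_eq_false_iff_not]
    constructor
    · rintro ⟨j', hj', rfl⟩
      exact ⟨j'.2, hj'⟩
    · rintro ⟨hj, h⟩
      exact ⟨⟨j, hj⟩, h, rfl⟩
  rw [h1, h2]

/-- the family of a proper interval graph -/
theorem famF_eq_intFam {n : ℕ} {L : List (ℕ × ℕ)} {l r : Fin n → ℝ} (hlr : ∀ v, l v ≤ r v)
    (hadj : ∀ u v, (graphOf n L).Adj u v ↔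
      u ≠ v ∧ (Set.Icc (l u) (r u) ∩ Set.Icc (l v) (r v)).Nonempty) :
    famF (nbsL n L) = intFam (Finset.range n) (fun i => if h : i < n then l ⟨i, h⟩ else 0)
      (fun i => if h : i < n then r ⟨i, h⟩ else 0) := by
  have key : ∀ i j, ∀ hi : i < n, ∀ hj : j < n,
      (j = i ∨ (i, j) ∈ L ∨ (j, i) ∈ L) ↔
        (l ⟨i, hi⟩ ≤ r ⟨j, hj⟩ ∧ l ⟨j, hj⟩ ≤ r ⟨i, hi⟩) := by
    intro i j hi hj
    by_cases hij : j = i
    · subst hij
      simp [hlr]
    · have h1 := hadj ⟨i, hi⟩ ⟨j, hj⟩
      have h2 : (⟨i, hi⟩ : Fin n) ≠ ⟨j, hj⟩ := fun h => hij (Fin.mk.inj h).symm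
      rw [Set.Icc_inter_Icc, Set.nonempty_Icc] at h1
      simp only [graphOf, SimpleGraph.fromRel_adj, ne_eq, h2, not_false_eq_true, true_and,
        sup_le_iff, le_inf_iff, hlr, and_true] at h1
      rw [or_iff_right hij, h1]
      tauto
  ext A
  rw [mem_famF, mem_intFam]
  simp only [nbsL, List.mem_map, List.mem_range, Finset.mem_range]
  constructor
  · rintro ⟨_, ⟨i, hi, rfl⟩, rfl⟩
    refine ⟨i, hi, fun j => ?_⟩
    simp only [nbrL, List.mem_toFinset, List.mem_filter, List.mem_range, Bool.or_eq_true,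
      decide_eq_true_eq]
    refine and_congr_right fun hj => ?_
    rw [key i j hi hj]
    simp [hi, hj]
  · rintro ⟨i, hi, h⟩
    refine ⟨_, ⟨i, hi, rfl⟩, ?_⟩
    ext j
    rw [h]
    simp only [nbrL, List.mem_toFinset, List.mem_filter, List.mem_range, Bool.or_eq_true,
      decide_eq_true_eq]
    refine and_congr_right fun hj => ?_
    rw [key i j hi hj]
    simp [hi, hj]

/-- **Correctness of the algorithm for proper interval graphs** -/
theorem mainF_correct (n : ℕ) (L : List (ℕ × ℕ)) (S : List ℕ)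
    (h : IsProperInterval (graphOf n L)) :
    mainF ((n, L), S) = (gameDom (graphOf n L) true (vertexSet n S),
      gameDom (graphOf n L) false (vertexSet n S)) := by
  obtain ⟨l, r, hlr, hadj, hp⟩ := h
  have hF := famF_eq_intFam hlr hadj
  have hlr' : ∀ i ∈ Finset.range n, (if h : i < n then l ⟨i, h⟩ else 0) ≤
      (if h : i < n then r ⟨i, h⟩ else 0) := by
    intro i hi
    rw [Finset.mem_range] at hi
    simp [hi, hlr]
  have hM : MaxNbr (famF (nbsL n L)) := by
    rw [hF]
    exact maxNbr_intFam _ _ _ hlr'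
  have h3 : ThreeTwo (famF (nbsL n L)) (undL n S).toFinset := by
    rw [hF]
    refine threeTwo_intFam _ _ _ hlr' ?_ ?_
    · intro u hu v hv
      rw [Finset.mem_range] at hu hv
      simp only [hu, hv, dif_pos]
      exact hp ⟨u, hu⟩ ⟨v, hv⟩
    · intro j hj
      rw [List.mem_toFinset] at hj
      have := List.mem_of_mem_filter hj
      simpa using this
  rw [mainF_correct_aux hM h3]
  unfold gameDom
  simp only [ends_graph]

end Pool.Agent.Lib.MP_104f04_lc
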