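import Pool.Agent.Lib.MP_104f04_lc.Defs

/-!
# The game on a family of move sets

`E F k b U` is the predicate `Ends` for a finite family `F` of move sets.
-/

namespace Pool.Agent.Lib.MP_104f04_lc

open Finset

variable {V W : Type} [DecidableEq V] [DecidableEq W]

/-- with the move sets `F`, Dominator can force the end within `k` moves -/
def E (F : Finset (Finset V)) : ℕ → Bool → Finset V → Prop
  | 0, _, U => U = ∅
  | k + 1, true, U => U = ∅ ∨ ∃ A ∈ F, (A ∩ U).Nonempty ∧ E F k false (U \ A)
  | k + 1, false, U => U = ∅ ∨ ∀ A ∈ F, (A ∩ U).Nonempty → E F k true (U \ A)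

theorem E_empty (F : Finset (Finset V)) (k : ℕ) (b : Bool) : E F k b ∅ := by
  cases k with
  | zero => rfl
  | succ k => cases b <;> exact Or.inl rfl

theorem ends_iff [Fintype V] (N : V → Finset V) (k : ℕ) (b : Bool) (U : Finset V) :
    Ends N k b U ↔ E (univ.image N) k b U := by
  induction k generalizing b U with
  | zero => rfl
  | succ k ih =>
    cases b
    · simp only [Ends, E, mem_image, mem_univ, true_and, forall_exists_index,
        forall_apply_eq_imp_iff, ih]
    · simp only [Ends, E, mem_image, mem_univ, true_and, ih]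
      constructor
      · rintro (h | ⟨v, h1, h2⟩)
        · exact Or.inl h
        · exact Or.inr ⟨_, ⟨v, rfl⟩, h1, h2⟩
      · rintro (h | ⟨_, ⟨v, rfl⟩, h1, h2⟩)
        · exact Or.inl h
        · exact Or.inr ⟨v, h1, h2⟩

theorem E_map (φ : V ↪ W) (F : Finset (Finset V)) (k : ℕ) (b : Bool) (U : Finset V) :
    E (F.image (Finset.map φ)) k b (U.map φ) ↔ E F k b U := by
  induction k generalizing b U with
  | zero => simp [E]
  | succ k ih =>
    have h1 : ∀ A : Finset V, (A.map φ ∩ U.map φ).Nonempty ↔ (A ∩ U).Nonempty := by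
      intro A
      rw [← Finset.map_inter, Finset.map_nonempty]
    have h2 : ∀ A : Finset V, U.map φ \ A.map φ = (U \ A).map φ := by
      intro A
      ext x
      simp only [mem_sdiff, mem_map]
      constructor
      · rintro ⟨⟨a, ha, rfl⟩, h⟩
        exact ⟨a, ⟨ha, fun h' => h ⟨a, h', rfl⟩⟩, rfl⟩
      · rintro ⟨a, ⟨ha, ha'⟩, rfl⟩
        refine ⟨⟨a, ha, rfl⟩, ?_⟩
        rintro ⟨c, hc, hc'⟩
        exact ha' (φ.injective hc' ▸ hc)
    cases b
    · simp only [E, mem_image, forall_exists_index, and_imp, forall_apply_eq_imp_iff₂, h1, h2, ih,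
        Finset.map_eq_empty]
    · simp only [E, mem_image, Finset.map_eq_empty]
      constructor
      · rintro (h | ⟨_, ⟨A, hA, rfl⟩, h3, h4⟩)
        · exact Or.inl h
        · rw [h1] at h3
          rw [h2, ih] at h4
          exact Or.inr ⟨A, hA, h3, h4⟩
      · rintro (h | ⟨A, hA, h3, h4⟩)
        · exact Or.inl h
        · refine Or.inr ⟨_, ⟨A, hA, rfl⟩, ?_, ?_⟩
          · rwa [h1]
          · rwa [h2, ih]

/-- every vertex of `U` can be dominated -/
def Cover (F : Finset (Finset V)) (U : Finset V) : Prop := ∀ u ∈ U, ∃ A ∈ F, u ∈ A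

theorem Cover.mono {F : Finset (Finset V)} {U U' : Finset V} (h : Cover F U) (hU : U' ⊆ U) :
    Cover F U' := fun u hu => h u (hU hu)

/-- Continuation principle -/
theorem E_mono {F : Finset (Finset V)} {k : ℕ} {b : Bool} {U U' : Finset V} (hc : Cover F U)
    (hU : U' ⊆ U) (h : E F k b U) : E F k b U' := by
  induction k generalizing b U U' with
  | zero => exact Finset.subset_empty.1 (hU.trans (Finset.subset_empty.2 h))
  | succ k ih =>
    rcases U'.eq_empty_or_nonempty with h0 | ⟨u', hu'⟩
    · rw [h0]; exact E_empty _ _ _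
    cases b
    · rcases h with h | h
      · exact absurd (hU hu') (by rw [h]; simp)
      · refine Or.inr fun A hA hAU => ?_
        exact ih (hc.mono sdiff_subset) (sdiff_subset_sdiff hU (le_refl _))
          (h A hA (hAU.mono (inter_subset_inter (le_refl _) hU)))
    · rcases h with h | ⟨A, hA, hAU, h⟩
      · exact absurd (hU hu') (by rw [h]; simp)
      · by_cases hA' : (A ∩ U').Nonempty
        · exact Or.inr ⟨A, hA, hA', ih (hc.mono sdiff_subset)
            (sdiff_subset_sdiff hU (le_refl _)) h⟩
        · obtain ⟨B, hB, huB⟩ := hc u' (hU hu')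
          refine Or.inr ⟨B, hB, ⟨u', mem_inter.2 ⟨huB, hu'⟩⟩, ih (hc.mono sdiff_subset) ?_ h⟩
          intro x hx
          rw [mem_sdiff] at hx ⊢
          exact ⟨hU hx.1, fun hxA => hA' ⟨x, mem_inter.2 ⟨hxA, hx.1⟩⟩⟩

/-- the maximum neighbour property: in every position there are an undominated vertex `u` and a
move `A ∋ u` that is at least as good as every other move dominating `u` -/
def MaxNbr (F : Finset (Finset V)) : Prop :=
  ∀ U : Finset V, U.Nonempty → Cover F U →
    ∃ u ∈ U, ∃ A ∈ F, u ∈ A ∧ ∀ B ∈ F, u ∈ B → B ∩ U ⊆ A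

theorem E_pred {F : Finset (Finset V)} {k : ℕ} {b : Bool} {X Y : Finset V} {u : V}
    (hc : Cover F X) (hYX : Y ⊆ X) (huX : u ∈ X) (hu : ∀ A ∈ F, u ∈ A → A ∩ Y = ∅)
    (hm : ∀ Z ⊆ Y, ∀ j, E F j false Z → E F j true Z) (h : E F (k + 1) b X) : E F k b Y := by
  induction k generalizing b X Y with
  | zero =>
    rcases Y.eq_empty_or_nonempty with h0 | ⟨y, hy⟩
    · rw [h0]; exact E_empty _ _ _
    · exfalso
      cases b
      · rcases h with h | h
        · rw [h] at huX; simp at huX
        · obtain ⟨A, hA, hyA⟩ := hc y (hYX hy)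
          have h2 : X \ A = ∅ := h A hA ⟨y, mem_inter.2 ⟨hyA, hYX hy⟩⟩
          have huA : u ∈ A := by
            by_contra huA
            have : u ∈ X \ A := mem_sdiff.2 ⟨huX, huA⟩
            rw [h2] at this
            simp at this
          have := hu A hA huA
          have h3 : y ∈ A ∩ Y := mem_inter.2 ⟨hyA, hy⟩
          rw [this] at h3
          simp at h3
      · rcases h with h | ⟨A, hA, hAX, h⟩
        · rw [h] at huX; simp at huX
        · have h2 : X \ A = ∅ := h
          have huA : u ∈ A := by
            by_contra huA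
            have : u ∈ X \ A := mem_sdiff.2 ⟨huX, huA⟩
            rw [h2] at this
            simp at this
          have hyA : y ∈ A := by
            by_contra hyA
            have : y ∈ X \ A := mem_sdiff.2 ⟨hYX hy, hyA⟩
            rw [h2] at this
            simp at this
          have := hu A hA huA
          have h3 : y ∈ A ∩ Y := mem_inter.2 ⟨hyA, hy⟩
          rw [this] at h3
          simp at h3
  | succ k ih =>
    rcases Y.eq_empty_or_nonempty with h0 | ⟨y, hy⟩
    · rw [h0]; exact E_empty _ _ _
    have step : ∀ A ∈ F, (A ∩ Y).Nonempty → u ∈ X \ A := by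
      intro A hA hAY
      refine mem_sdiff.2 ⟨huX, fun huA => ?_⟩
      rw [hu A hA huA] at hAY
      simp at hAY
    cases b
    · rcases h with h | h
      · rw [h] at huX; simp at huX
      · refine Or.inr fun A hA hAY => ?_
        exact ih (hc.mono sdiff_subset) (sdiff_subset_sdiff hYX (le_refl _)) (step A hA hAY)
          (fun B hB huB => by
            have := hu B hB huB
            rw [← Finset.subset_empty] at this ⊢
            exact (inter_subset_inter (le_refl _) sdiff_subset).trans this)
          (fun Z hZ => hm Z (hZ.trans sdiff_subset))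
          (h A hA (hAY.mono (inter_subset_inter (le_refl _) hYX)))
    · rcases h with h | ⟨A, hA, hAX, h⟩
      · rw [h] at huX; simp at huX
      · by_cases hAY : (A ∩ Y).Nonempty
        · refine Or.inr ⟨A, hA, hAY, ?_⟩
          exact ih (hc.mono sdiff_subset) (sdiff_subset_sdiff hYX (le_refl _)) (step A hA hAY)
            (fun B hB huB => by
              have := hu B hB huB
              rw [← Finset.subset_empty] at this ⊢
              exact (inter_subset_inter (le_refl _) sdiff_subset).trans this)
            (fun Z hZ => hm Z (hZ.trans sdiff_subset)) h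
        · apply hm Y (le_refl _)
          refine E_mono (hc.mono sdiff_subset) ?_ h
          intro x hx
          exact mem_sdiff.2 ⟨hYX hx, fun hxA => hAY ⟨x, mem_inter.2 ⟨hxA, hx⟩⟩⟩

/-- Under the maximum neighbour property the first move is never a disadvantage for Dominator. -/
theorem noMinus {F : Finset (Finset V)} (hF : MaxNbr F) (n : ℕ) : ∀ U : Finset V, U.card ≤ n →
    Cover F U → ∀ k, E F k false U → E F k true U := by
  induction n with
  | zero =>
    intro U hU _ k _
    rw [card_eq_zero.1 (Nat.le_zero.1 hU)]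
    exact E_empty _ _ _
  | succ n ih =>
    intro U hU hc k h
    rcases U.eq_empty_or_nonempty with h0 | hne
    · rw [h0]; exact E_empty _ _ _
    cases k with
    | zero =>
      have h' : U = ∅ := h
      rw [h']; exact E_empty _ _ _
    | succ k =>
      obtain ⟨u, hu, A, hA, huA, hmax⟩ := hF U hne hc
      refine Or.inr ⟨A, hA, ⟨u, mem_inter.2 ⟨huA, hu⟩⟩, ?_⟩
      have hsub : U \ A ⊆ U := sdiff_subset
      have hcard : (U \ A).card < U.card := by
        apply card_lt_card
        refine ⟨hsub, fun h' => ?_⟩
        exact (mem_sdiff.1 (h' hu)).2 huA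
      refine E_pred (u := u) hc hsub hu ?_ ?_ h
      · intro B hB huB
        rw [← Finset.subset_empty]
        intro x hx
        rw [mem_inter, mem_sdiff] at hx
        exact absurd (hmax B hB huB (mem_inter.2 ⟨hx.1, hx.2.1⟩)) hx.2.2
      · intro Z hZ j hj
        exact ih Z (by have := card_le_card hZ; omega) (hc.mono (hZ.trans hsub)) j hj

end Pool.Agent.Lib.MP_104f04_lc
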