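import Pool.Agent.Lib.MP_104f04_lc.Algo
import Pool.Agent.Lib.PolyTime.Eq

/-!
# The algorithm runs in polynomial time
-/

namespace Pool.Agent.Lib.MP_104f04_lc

open Pool.Agent.PolyTime Polynomial

variable {α : Type} [SCode α]

theorem sz_filter_le {β : Type} [SCode β] (p : β → Bool) (l : List β) :
    sz (l.filter p) ≤ sz l := by
  induction l with
  | nil => simp
  | cons b l ih =>
    rw [List.filter_cons]
    split_ifs
    · simp only [sz_cons]; omega
    · simp only [sz_cons]; omega

theorem sz_bits_le (l : List Bool) : sz l ≤ 4 * l.length + 1 := by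
  induction l with
  | nil => simp
  | cons b l ih =>
    have := sz_bool_le b
    simp only [sz_cons, List.length_cons]
    omega

theorem sz_map_le {β γ : Type} [SCode β] [SCode γ] (f : β → γ) (K : ℕ) (l : List β)
    (h : ∀ b ∈ l, sz (f b) ≤ sz b + K) : sz (l.map f) ≤ sz l + l.length * K := by
  induction l with
  | nil => simp
  | cons b l ih =>
    have h1 := ih (fun c hc => h c (List.mem_cons_of_mem _ hc))
    have h2 := h b (by simp)
    simp only [List.map_cons, sz_cons, List.length_cons, Nat.succ_mul]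
    omega

namespace PT

/-! ### Bits -/

theorem getBit {a : α → List Bool} {i : α → ℕ} (ha : PTime a) (hi : PTime i) :
    PTime (fun x => (a x).getD (i x) false) :=
  PTime.getD hi ha (PTime.const false)

theorem xor {f g : α → Bool} (hf : PTime f) (hg : PTime g) : PTime (fun x => f x ^^ g x) :=
  (PTime.cond hf (PTime.not hg) hg).of_eq fun x => by cases f x <;> cases g x <;> rfl

theorem addB {w : α → ℕ} {a b : α → List Bool} (hw : PTime w) (ha : PTime a) (hb : PTime b) :
    PTime (fun x => Pool.Agent.Lib.MP_104f04_lc.addB (w x) (a x) (b x)) := by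
  refine PTime.reverse (PTime.snd.comp (f := Prod.snd) ?_)
  refine PTime.foldl (f := fun x st i => addStep (a x) (b x) st i) (PTime.range hw)
    (PTime.const (false, [])) ?_ (C 10) ?_
  · have p1 : PTime (fun p : α × (Bool × List Bool) × ℕ => (a p.1).getD p.2.2 false) :=
      getBit (ha.comp PTime.fst) (PTime.snd.comp PTime.snd)
    have p2 : PTime (fun p : α × (Bool × List Bool) × ℕ => (b p.1).getD p.2.2 false) :=
      getBit (hb.comp PTime.fst) (PTime.snd.comp PTime.snd)
    have p3 : PTime (fun p : α × (Bool × List Bool) × ℕ => p.2.1.1) :=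
      PTime.fst.comp (PTime.fst.comp PTime.snd)
    have p4 : PTime (fun p : α × (Bool × List Bool) × ℕ => p.2.1.2) :=
      PTime.snd.comp (PTime.fst.comp PTime.snd)
    exact PTime.pair (PTime.or (PTime.and p1 p2) (PTime.and p3 (PTime.or p1 p2)))
      (PTime.cons (xor p1 (xor p2 p3)) p4)
  · intro x st i _
    obtain ⟨c, l⟩ := st
    simp only [addStep, sz_pair, sz_cons, eval_C]
    have h1 := sz_bool_le (((a x).getD i false && (b x).getD i false) ||
      (c && ((a x).getD i false || (b x).getD i false)))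
    have h2 := sz_bool_le ((a x).getD i false ^^ ((b x).getD i false ^^ c))
    have h3 := sz_pos c
    omega

theorem ltB {w : α → ℕ} {a b : α → List Bool} (hw : PTime w) (ha : PTime a) (hb : PTime b) :
    PTime (fun x => Pool.Agent.Lib.MP_104f04_lc.ltB (w x) (a x) (b x)) := by
  refine PTime.foldl (f := fun x (r : Bool) i => if (a x).getD i false = (b x).getD i false then r
    else (b x).getD i false) (PTime.range hw) (PTime.const false) ?_ (C 3) ?_
  · have p1 : PTime (fun p : α × Bool × ℕ => (a p.1).getD p.2.2 false) :=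
      getBit (ha.comp PTime.fst) (PTime.snd.comp PTime.snd)
    have p2 : PTime (fun p : α × Bool × ℕ => (b p.1).getD p.2.2 false) :=
      getBit (hb.comp PTime.fst) (PTime.snd.comp PTime.snd)
    exact PTime.ite (c := fun p : α × Bool × ℕ =>
      (a p.1).getD p.2.2 false = (b p.1).getD p.2.2 false) (PTime.eq p1 p2)
      (PTime.fst.comp PTime.snd) p2
  · intro x r i _
    have := sz_bool_le (if (a x).getD i false = (b x).getD i false then r
      else (b x).getD i false)
    simp only [eval_C]
    omega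

theorem maxB {w : α → ℕ} {l : α → List (List Bool)} (hw : PTime w) (hl : PTime l) :
    PTime (fun x => Pool.Agent.Lib.MP_104f04_lc.maxB (w x) (l x)) := by
  obtain ⟨P, hP⟩ := hl.sz_le
  refine PTime.foldl (f := fun x (acc y : List Bool) =>
    if Pool.Agent.Lib.MP_104f04_lc.ltB (w x) acc y then y else acc) hl (PTime.const []) ?_ P ?_
  · exact (PTime.cond (c := fun p : α × List Bool × List Bool =>
      Pool.Agent.Lib.MP_104f04_lc.ltB (w p.1) p.2.1 p.2.2)
      (ltB (hw.comp PTime.fst) (PTime.fst.comp PTime.snd) (PTime.snd.comp PTime.snd))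
      (PTime.snd.comp PTime.snd) (PTime.fst.comp PTime.snd)).of_eq fun p => by
        by_cases h : Pool.Agent.Lib.MP_104f04_lc.ltB (w p.1) p.2.1 p.2.2 = true <;> simp [h]
  · intro x acc y hy
    have h1 := sz_le_of_mem hy
    have h2 := hP x
    split_ifs <;> omega

theorem minB {w : α → ℕ} {l : α → List (List Bool)} (hw : PTime w) (hl : PTime l) :
    PTime (fun x => Pool.Agent.Lib.MP_104f04_lc.minB (w x) (l x)) := by
  obtain ⟨P, hP⟩ := hl.sz_le
  refine PTime.foldl (f := fun x (acc y : List Bool) =>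
    if Pool.Agent.Lib.MP_104f04_lc.ltB (w x) y acc then y else acc) hl
    (PTime.replicate hw (PTime.const true)) ?_ P ?_
  · exact (PTime.cond (c := fun p : α × List Bool × List Bool =>
      Pool.Agent.Lib.MP_104f04_lc.ltB (w p.1) p.2.2 p.2.1)
      (ltB (hw.comp PTime.fst) (PTime.snd.comp PTime.snd) (PTime.fst.comp PTime.snd))
      (PTime.snd.comp PTime.snd) (PTime.fst.comp PTime.snd)).of_eq fun p => by
        by_cases h : Pool.Agent.Lib.MP_104f04_lc.ltB (w p.1) p.2.2 p.2.1 = true <;> simp [h]
  · intro x acc y hy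
    have h1 := sz_le_of_mem hy
    have h2 := hP x
    split_ifs <;> omega

theorem candB {w s j : α → ℕ} {lo : α → List Bool} (hw : PTime w) (hs : PTime s)
    (hlo : PTime lo) (hj : PTime j) :
    PTime (fun x => Pool.Agent.Lib.MP_104f04_lc.candB (w x) (s x) (lo x) (j x)) :=
  PTime.take hw (PTime.append (PTime.replicate (PTime.sub hs hj) (PTime.const false))
    (addB hw (PTime.drop (PTime.sub hs hj) hlo) (PTime.const [true])))

theorem simpB {w s : α → ℕ} {lo hi : α → List Bool} (hw : PTime w) (hs : PTime s)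
    (hlo : PTime lo) (hhi : PTime hi) :
    PTime (fun x => Pool.Agent.Lib.MP_104f04_lc.simpB (w x) (s x) (lo x) (hi x)) := by
  refine PTime.option_casesOn (f := fun x => (List.range (s x + 1)).find? (fun j =>
    Pool.Agent.Lib.MP_104f04_lc.ltB (w x)
      (Pool.Agent.Lib.MP_104f04_lc.candB (w x) (s x) (lo x) j) (hi x)))
    (h := fun x j => Pool.Agent.Lib.MP_104f04_lc.candB (w x) (s x) (lo x) j)
    (PTime.find? (PTime.range (PTime.succ hs)) ?_) (PTime.const []) ?_
  · exact ltB (hw.comp PTime.fst) (candB (hw.comp PTime.fst) (hs.comp PTime.fst)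
      (hlo.comp PTime.fst) PTime.snd) (hhi.comp PTime.fst)
  · exact candB (hw.comp PTime.fst) (hs.comp PTime.fst) (hlo.comp PTime.fst) PTime.snd

/-! ### Lists -/

theorem diffL {W A : α → List ℕ} (hW : PTime W) (hA : PTime A) :
    PTime (fun x => Pool.Agent.Lib.MP_104f04_lc.diffL (W x) (A x)) :=
  PTime.filter hW (PTime.not (PTime.mem PTime.snd (hA.comp PTime.fst)))

theorem meets {A C : α → List ℕ} (hA : PTime A) (hC : PTime C) :
    PTime (fun x => Pool.Agent.Lib.MP_104f04_lc.meets (A x) (C x)) :=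
  PTime.any hA (PTime.mem PTime.snd (hC.comp PTime.fst))

theorem stepL {Ns : α → List (List ℕ)} {W X : α → List ℕ} (hN : PTime Ns) (hW : PTime W)
    (hX : PTime X) : PTime (fun x => Pool.Agent.Lib.MP_104f04_lc.stepL (Ns x) (W x) (X x)) := by
  refine PTime.filter (p := fun x y => decide (y ∈ X x) || (Ns x).any (fun A =>
    decide (y ∈ A) && Pool.Agent.Lib.MP_104f04_lc.meets A (X x))) hW
    (PTime.or (PTime.mem PTime.snd (hX.comp PTime.fst)) ?_)
  refine PTime.any (p := fun (q : α × ℕ) A => decide (q.2 ∈ A) &&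
    Pool.Agent.Lib.MP_104f04_lc.meets A (X q.1)) (hN.comp PTime.fst) ?_
  exact PTime.and (PTime.mem (PTime.snd.comp PTime.fst) PTime.snd)
    (meets PTime.snd (hX.comp (PTime.fst.comp PTime.fst)))

theorem compL {Ns : α → List (List ℕ)} {W : α → List ℕ} {q : α → ℕ} (hN : PTime Ns)
    (hW : PTime W) (hq : PTime q) :
    PTime (fun x => Pool.Agent.Lib.MP_104f04_lc.compL (Ns x) (W x) (q x)) := by
  obtain ⟨P, hP⟩ := hW.sz_le
  obtain ⟨R, hR⟩ := hq.sz_le
  refine PTime.iterate_of_bound (f := fun x X => Pool.Agent.Lib.MP_104f04_lc.stepL (Ns x) (W x) X)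
    (PTime.length hW) (PTime.cons hq (PTime.const [])) ?_ (P + R + C 2) ?_
  · exact stepL (hN.comp PTime.fst) (hW.comp PTime.fst) PTime.snd
  · intro x i _
    have h1 := hP x
    have h2 := hR x
    simp only [eval_add, eval_C]
    cases i with
    | zero =>
      simp only [Function.iterate_zero, id_eq, sz_cons, sz_nil]
      omega
    | succ i =>
      rw [Function.iterate_succ_apply']
      have h3 : sz (Pool.Agent.Lib.MP_104f04_lc.stepL (Ns x) (W x)
          ((fun X => Pool.Agent.Lib.MP_104f04_lc.stepL (Ns x) (W x) X)^[i] [q x])) ≤ sz (W x) :=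
        sz_filter_le _ _
      omega

theorem repsL {Ns : α → List (List ℕ)} {W : α → List ℕ} (hN : PTime Ns) (hW : PTime W) :
    PTime (fun x => Pool.Agent.Lib.MP_104f04_lc.repsL (Ns x) (W x)) := by
  refine PTime.filter (p := fun x q => decide
    ((Pool.Agent.Lib.MP_104f04_lc.compL (Ns x) (W x) q).head? = some q)) hW ?_
  exact PTime.eq (PTime.head? (compL (hN.comp PTime.fst) (hW.comp PTime.fst) PTime.snd))
    (PTime.some PTime.snd)

theorem look {T : α → List (List ℕ × List Bool)} {D : α → List ℕ} (hT : PTime T)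
    (hD : PTime D) : PTime (fun x => Pool.Agent.Lib.MP_104f04_lc.look (T x) (D x)) := by
  have h1 : PTime (fun q : α × (List ℕ × List Bool) => decide (D q.1 = q.2.1)) :=
    PTime.eq (hD.comp PTime.fst) (PTime.fst.comp PTime.snd)
  have h2 : PTime (fun x => (T x).find? (fun p : List ℕ × List Bool => decide (D x = p.1))) :=
    PTime.find? (p := fun x (p : List ℕ × List Bool) => decide (D x = p.1)) hT h1
  have h3 : PTime (fun q : α × (List ℕ × List Bool) => q.2.2) := PTime.snd.comp PTime.snd
  have h4 := PTime.option_casesOn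
    (f := fun x => (T x).find? (fun p : List ℕ × List Bool => decide (D x = p.1)))
    (g := fun _ => ([] : List Bool)) (h := fun _ (p : List ℕ × List Bool) => p.2)
    h2 (PTime.const []) h3
  exact h4.of_eq fun x => rfl

theorem sumB {Ns : α → List (List ℕ)} {T : α → List (List ℕ × List Bool)} {w : α → ℕ}
    {W : α → List ℕ} (hN : PTime Ns) (hT : PTime T) (hw : PTime w) (hW : PTime W) :
    PTime (fun x => Pool.Agent.Lib.MP_104f04_lc.sumB (Ns x) (T x) (w x) (W x)) := by
  obtain ⟨P, hP⟩ := hw.sz_le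
  refine PTime.foldl (f := fun x acc q => Pool.Agent.Lib.MP_104f04_lc.addB (w x) acc
    (Pool.Agent.Lib.MP_104f04_lc.look (T x)
      (Pool.Agent.Lib.MP_104f04_lc.compL (Ns x) (W x) q))) (repsL hN hW) (PTime.const []) ?_
    (C 4 * P + C 1) ?_
  · exact addB (hw.comp PTime.fst) (PTime.fst.comp PTime.snd) (look (hT.comp PTime.fst)
      (compL (hN.comp PTime.fst) (hW.comp PTime.fst) (PTime.snd.comp PTime.snd)))
  · intro x acc q _
    have h1 := hP x
    have h2 := sz_bits_le (Pool.Agent.Lib.MP_104f04_lc.addB (w x) acc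
      (Pool.Agent.Lib.MP_104f04_lc.look (T x)
        (Pool.Agent.Lib.MP_104f04_lc.compL (Ns x) (W x) q)))
    rw [length_addB] at h2
    rw [sz_nat] at h1
    simp only [eval_add, eval_mul, eval_C]
    omega

theorem valsB {Ns : α → List (List ℕ)} {T : α → List (List ℕ × List Bool)} {w : α → ℕ}
    {D : α → List ℕ} (hN : PTime Ns) (hT : PTime T) (hw : PTime w) (hD : PTime D) :
    PTime (fun x => Pool.Agent.Lib.MP_104f04_lc.valsB (Ns x) (T x) (w x) (D x)) := by
  refine PTime.map (f := fun x A => Pool.Agent.Lib.MP_104f04_lc.sumB (Ns x) (T x) (w x)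
    (Pool.Agent.Lib.MP_104f04_lc.diffL (D x) A)) ?_ ?_
  · exact PTime.filter (p := fun x A => Pool.Agent.Lib.MP_104f04_lc.meets A (D x)) hN
      (meets PTime.snd (hD.comp PTime.fst))
  · exact sumB (hN.comp PTime.fst) (hT.comp PTime.fst) (hw.comp PTime.fst)
      (diffL (hD.comp PTime.fst) PTime.snd)

theorem evalB {Ns : α → List (List ℕ)} {T : α → List (List ℕ × List Bool)} {w s : α → ℕ}
    {D : α → List ℕ} (hN : PTime Ns) (hT : PTime T) (hw : PTime w) (hs : PTime s)
    (hD : PTime D) :
    PTime (fun x => Pool.Agent.Lib.MP_104f04_lc.evalB (Ns x) (T x) (w x) (s x) (D x)) := by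
  refine PTime.ite (c := fun x => D x = []) (PTime.eq hD (PTime.const [])) (PTime.const [])
    (simpB hw hs (maxB hw (valsB hN hT hw hD)) (addB hw (minB hw (valsB hN hT hw hD)) ?_))
  exact PTime.append (PTime.replicate (PTime.succ hs) (PTime.const false)) (PTime.const [true])

theorem famL {Ns : α → List (List ℕ)} {U : α → List ℕ} (hN : PTime Ns) (hU : PTime U) :
    PTime (fun x => Pool.Agent.Lib.MP_104f04_lc.famL (Ns x) (U x)) := by
  refine PTime.flatMap (f := fun x (W : List ℕ) => W.map (fun q =>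
    Pool.Agent.Lib.MP_104f04_lc.compL (Ns x) W q)) ?_ ?_
  · refine PTime.cons hU (PTime.append ?_ ?_)
    · exact PTime.map (f := fun x A => Pool.Agent.Lib.MP_104f04_lc.diffL (U x) A) hN
        (diffL (hU.comp PTime.fst) PTime.snd)
    · refine PTime.flatMap (f := fun x A => (Ns x).map (fun B =>
        Pool.Agent.Lib.MP_104f04_lc.diffL (Pool.Agent.Lib.MP_104f04_lc.diffL (U x) A) B)) hN ?_
      exact PTime.map (f := fun (p : α × List ℕ) B => Pool.Agent.Lib.MP_104f04_lc.diffL
        (Pool.Agent.Lib.MP_104f04_lc.diffL (U p.1) p.2) B) (hN.comp PTime.fst)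
        (diffL (diffL (hU.comp (PTime.fst.comp PTime.fst)) (PTime.snd.comp PTime.fst)) PTime.snd)
  · exact PTime.map (f := fun (p : α × List ℕ) q =>
      Pool.Agent.Lib.MP_104f04_lc.compL (Ns p.1) p.2 q) PTime.snd
      (compL (hN.comp (PTime.fst.comp PTime.fst)) (PTime.snd.comp PTime.fst) PTime.snd)

theorem length_candB (w s : ℕ) (lo : List Bool) (j : ℕ) :
    (Pool.Agent.Lib.MP_104f04_lc.candB w s lo j).length ≤ w := by
  unfold Pool.Agent.Lib.MP_104f04_lc.candB
  rw [List.length_take]
  omega

theorem length_simpB (w s : ℕ) (lo hi : List Bool) :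
    (Pool.Agent.Lib.MP_104f04_lc.simpB w s lo hi).length ≤ w := by
  unfold Pool.Agent.Lib.MP_104f04_lc.simpB
  rcases (List.range (s + 1)).find? _ with _ | j
  · simp
  · exact length_candB w s lo j

theorem length_evalB (Ns : List (List ℕ)) (T : List (List ℕ × List Bool)) (w s : ℕ)
    (D : List ℕ) : (Pool.Agent.Lib.MP_104f04_lc.evalB Ns T w s D).length ≤ w := by
  unfold Pool.Agent.Lib.MP_104f04_lc.evalB
  split_ifs
  · simp
  · exact length_simpB _ _ _ _

theorem tabB {Ns : α → List (List ℕ)} {U : α → List ℕ} {w s k : α → ℕ} (hN : PTime Ns)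
    (hU : PTime U) (hw : PTime w) (hs : PTime s) (hk : PTime k) :
    PTime (fun x => Pool.Agent.Lib.MP_104f04_lc.tabB (Ns x) (U x) (w x) (s x) (k x)) := by
  have hfam := famL hN hU
  obtain ⟨P, hP⟩ := hfam.sz_le
  obtain ⟨R, hR⟩ := hw.sz_le
  refine PTime.iterate_of_bound (f := fun x T => roundB (Ns x) (w x) (s x) T) hk
    (PTime.map (f := fun _ D => (D, ([] : List Bool))) hfam
      (PTime.pair PTime.snd (PTime.const []))) ?_ (P + P * (C 4 * R + C 2)) ?_
  · refine PTime.map (f := fun (p : α × List (List ℕ × List Bool)) q =>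
      (q.1, Pool.Agent.Lib.MP_104f04_lc.evalB (Ns p.1) p.2 (w p.1) (s p.1) q.1)) PTime.snd ?_
    exact PTime.pair (PTime.fst.comp PTime.snd) (evalB (hN.comp (PTime.fst.comp PTime.fst))
      (PTime.snd.comp PTime.fst) (hw.comp (PTime.fst.comp PTime.fst))
      (hs.comp (PTime.fst.comp PTime.fst)) (PTime.fst.comp PTime.snd))
  · intro x i _
    -- the entries have at most `w` bits
    have key : ∃ g : List ℕ → List Bool, (∀ D, (g D).length ≤ w x) ∧
        (fun T => roundB (Ns x) (w x) (s x) T)^[i]
          ((Pool.Agent.Lib.MP_104f04_lc.famL (Ns x) (U x)).map (fun D => (D, []))) =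
        (Pool.Agent.Lib.MP_104f04_lc.famL (Ns x) (U x)).map (fun D => (D, g D)) := by
      induction i with
      | zero => exact ⟨fun _ => [], by simp, rfl⟩
      | succ i ih =>
        obtain ⟨g, _, hg⟩ := ih (by omega)
        rw [Function.iterate_succ_apply', hg]
        refine ⟨fun D => Pool.Agent.Lib.MP_104f04_lc.evalB (Ns x)
          ((Pool.Agent.Lib.MP_104f04_lc.famL (Ns x) (U x)).map (fun D => (D, g D)))
          (w x) (s x) D, fun D => length_evalB _ _ _ _ _, ?_⟩
        simp only [roundB, List.map_map]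
        rfl
    obtain ⟨g, hg1, hg2⟩ := key
    rw [hg2]
    have h1 := hP x
    have h2 := hR x
    rw [sz_nat] at h2
    have h3 := sz_map_le (fun D : List ℕ => (D, g D)) (4 * R.eval (sz x) + 2)
      (Pool.Agent.Lib.MP_104f04_lc.famL (Ns x) (U x)) (fun D _ => by
        have h4 := sz_bits_le (g D)
        have h5 := hg1 D
        simp only [sz_pair]
        omega)
    have h4 := length_le_sz (Pool.Agent.Lib.MP_104f04_lc.famL (Ns x) (U x))
    simp only [eval_add, eval_mul, eval_C]
    have h5 : (Pool.Agent.Lib.MP_104f04_lc.famL (Ns x) (U x)).length *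
        (4 * R.eval (sz x) + 2) ≤ P.eval (sz x) * (4 * R.eval (sz x) + 2) :=
      Nat.mul_le_mul_right _ (by omega)
    omega

theorem valB {Ns : α → List (List ℕ)} {U : α → List ℕ} {w s k : α → ℕ} (hN : PTime Ns)
    (hU : PTime U) (hw : PTime w) (hs : PTime s) (hk : PTime k) :
    PTime (fun x => Pool.Agent.Lib.MP_104f04_lc.valB (Ns x) (U x) (w x) (s x) (k x)) :=
  sumB hN (tabB hN hU hw hs hk) hw hU

theorem natMin {f g : α → ℕ} (hf : PTime f) (hg : PTime g) : PTime (fun x => min (f x) (g x)) :=
  (PTime.sub hf (PTime.sub hf hg)).of_eq fun x => by omega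

theorem toNat {f : α → Bool} (hf : PTime f) : PTime (fun x => (f x).toNat) :=
  (PTime.cond hf (PTime.const 1) (PTime.const 0)).of_eq fun x => by cases f x <;> rfl

theorem uval {cap : α → ℕ} {l : α → List Bool} (hc : PTime cap) (hl : PTime l) :
    PTime (fun x => Pool.Agent.Lib.MP_104f04_lc.uval (cap x) (l x)) := by
  obtain ⟨P, hP⟩ := hc.sz_le
  refine PTime.foldr (f := fun x (b : Bool) acc => min (cap x) (2 * acc + b.toNat)) hl
    (PTime.const 0) ?_ P ?_
  · exact natMin (hc.comp PTime.fst) (PTime.add (PTime.mul (PTime.const 2)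
      (PTime.snd.comp PTime.snd)) (toNat (PTime.fst.comp PTime.snd)))
  · intro x acc b _
    have h1 := hP x
    rw [sz_nat] at h1 ⊢
    have := min_le_left (cap x) (2 * acc + b.toNat)
    omega

end PT

end Pool.Agent.Lib.MP_104f04_lc
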