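import Pool.Agent.Lib.MP_104f04_lc.Game

/-!
# The value of a position

Every position has a value, a dyadic rational number (scaled by `2 ^ s`): the simplest number
that is larger than the values of all options and smaller than these values plus `2`.
-/

namespace Pool.Agent.Lib.MP_104f04_lc

open Finset

/-- the least multiple of `2 ^ (s - j)` larger than `lo` -/
def cand (s lo j : ℕ) : ℕ := (lo / 2 ^ (s - j) + 1) * 2 ^ (s - j)

/-- the simplest number strictly between `lo` and `hi` (scaled by `2 ^ s`) -/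
def simplest (s lo hi : ℕ) : ℕ :=
  match (List.range (s + 1)).find? (fun j => decide (cand s lo j < hi)) with
  | some j => cand s lo j
  | none => 0

/-- `z` is the simplest number between `lo` and `hi` (scaled by `2 ^ s`) -/
structure IsS (s lo hi z : ℕ) : Prop where
  lt : lo < z
  lt' : z < hi
  le : z ≤ lo + Nat.gcd z (2 ^ s)
  or : Nat.gcd z (2 ^ s) = 2 ^ s ∨ hi ≤ z + Nat.gcd z (2 ^ s)

theorem gcd_pow (s z : ℕ) : ∃ i ≤ s, Nat.gcd z (2 ^ s) = 2 ^ i :=
  (Nat.dvd_prime_pow Nat.prime_two).1 (Nat.gcd_dvd_right z (2 ^ s))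

theorem gcd_pos' (s z : ℕ) : 0 < Nat.gcd z (2 ^ s) := Nat.gcd_pos_of_pos_right _ (by positivity)

theorem lt_add_of_dvd {t x y : ℕ} (hx : t ∣ x) (hy : t ∣ y) (h1 : x < y + t) : x ≤ y := by
  obtain ⟨a, rfl⟩ := hx
  obtain ⟨b, rfl⟩ := hy
  have : t * a < t * (b + 1) := by rw [Nat.mul_succ]; exact h1
  have := Nat.lt_of_mul_lt_mul_left this
  exact Nat.mul_le_mul_left _ (by omega)

theorem IsS.unique_aux {s lo hi z z' : ℕ} (h : IsS s lo hi z) (h' : IsS s lo hi z')
    (hd : Nat.gcd z (2 ^ s) ∣ Nat.gcd z' (2 ^ s)) : z = z' := by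
  have h1 := h.lt; have h2 := h.lt'; have h3 := h.le
  have h1' := h'.lt; have h2' := h'.lt'; have h3' := h'.le
  have ht : Nat.gcd z (2 ^ s) ∣ z := Nat.gcd_dvd_left _ _
  have ht' : Nat.gcd z (2 ^ s) ∣ z' := hd.trans (Nat.gcd_dvd_left _ _)
  apply le_antisymm
  · exact lt_add_of_dvd ht ht' (by omega)
  · rcases h.or with h4 | h4
    · have : Nat.gcd z' (2 ^ s) = 2 ^ s :=
        Nat.dvd_antisymm (Nat.gcd_dvd_right _ _) (by rw [h4] at hd; exact hd)
      exact lt_add_of_dvd ht' ht (by omega)
    · exact lt_add_of_dvd ht' ht (by omega)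

theorem IsS.unique {s lo hi z z' : ℕ} (h : IsS s lo hi z) (h' : IsS s lo hi z') : z = z' := by
  obtain ⟨i, _, h1⟩ := gcd_pow s z
  obtain ⟨j, _, h2⟩ := gcd_pow s z'
  rcases le_total i j with hij | hij
  · exact h.unique_aux h' (by rw [h1, h2]; exact pow_dvd_pow 2 hij)
  · exact (h'.unique_aux h (by rw [h1, h2]; exact pow_dvd_pow 2 hij)).symm

theorem lt_cand (s lo j : ℕ) : lo < cand s lo j := by
  unfold cand
  have hp : 0 < 2 ^ (s - j) := by positivity
  have := Nat.div_add_mod lo (2 ^ (s - j))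
  have := Nat.mod_lt lo hp
  nlinarith

theorem cand_le (s lo j : ℕ) : cand s lo j ≤ lo + 2 ^ (s - j) := by
  unfold cand
  have := Nat.div_mul_le_self lo (2 ^ (s - j))
  rw [Nat.succ_mul]
  omega

theorem dvd_cand (s lo j : ℕ) : 2 ^ (s - j) ∣ cand s lo j := Dvd.intro_left _ rfl

theorem cand_le_of_dvd {s lo j z : ℕ} (h : 2 ^ (s - j) ∣ z) (hz : lo < z) : cand s lo j ≤ z := by
  refine lt_add_of_dvd (dvd_cand s lo j) h ?_
  have := cand_le s lo j
  omega

theorem simplest_spec {s e lo hi : ℕ} (he : e + 1 ≤ s) (h1 : 2 ^ (s - e) ∣ lo)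
    (h2 : 2 ^ (s - e) ∣ hi) (h : lo < hi) :
    IsS s lo hi (simplest s lo hi) ∧ 2 ^ (s - (e + 1)) ∣ simplest s lo hi := by
  have h3 : cand s lo (e + 1) < hi := by
    have h4 := cand_le s lo (e + 1)
    have h5 : lo + 2 ^ (s - e) ≤ hi := by
      obtain ⟨a, rfl⟩ := h1
      obtain ⟨b, rfl⟩ := h2
      have := Nat.lt_of_mul_lt_mul_left h
      calc 2 ^ (s - e) * a + 2 ^ (s - e) = 2 ^ (s - e) * (a + 1) := by ring
        _ ≤ _ := Nat.mul_le_mul_left _ this
    have h6 : 2 ^ (s - (e + 1)) < 2 ^ (s - e) := Nat.pow_lt_pow_right (by norm_num) (by omega)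
    omega
  rcases hf : (List.range (s + 1)).find? (fun j => decide (cand s lo j < hi)) with _ | j
  · rw [List.find?_eq_none] at hf
    have := hf (e + 1) (by simp; omega)
    simp at this
    omega
  · have hs : simplest s lo hi = cand s lo j := by
      simp only [simplest, hf]
    rw [List.find?_range_eq_some] at hf
    obtain ⟨hj1, hj2, hj3⟩ := hf
    simp only [decide_eq_true_eq] at hj1
    rw [List.mem_range] at hj2
    have hje : j ≤ e + 1 := by
      by_contra hlt
      have := hj3 (e + 1) (by omega)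
      simp at this
      omega
    rw [hs]
    refine ⟨⟨lt_cand s lo j, hj1, ?_, ?_⟩, ?_⟩
    · have h4 : 2 ^ (s - j) ∣ Nat.gcd (cand s lo j) (2 ^ s) :=
        Nat.dvd_gcd (dvd_cand s lo j) (pow_dvd_pow 2 (by omega))
      have h5 := Nat.le_of_dvd (gcd_pos' _ _) h4
      have := cand_le s lo j
      omega
    · rcases Nat.eq_zero_or_pos j with h0 | hpos
      · left
        have h4 : 2 ^ s ∣ cand s lo j := by
          have := dvd_cand s lo j
          subst h0
          exact this
        exact Nat.gcd_eq_right h4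
      · right
        have h4 : ¬ 2 ^ (s - (j - 1)) ∣ cand s lo j := by
          intro hd
          have h5 := cand_le_of_dvd hd (lt_cand s lo j)
          have := hj3 (j - 1) (by omega)
          simp at this
          omega
        have h5 : 2 ^ (s - (j - 1)) ∣ cand s lo j + 2 ^ (s - j) := by
          obtain ⟨c, hc⟩ := dvd_cand s lo j
          have h6 : 2 ^ (s - (j - 1)) = 2 ^ (s - j) * 2 := by
            rw [← pow_succ]; congr 1; omega
          rw [h6, hc] at h4 ⊢
          rw [show 2 ^ (s - j) * c + 2 ^ (s - j) = 2 ^ (s - j) * (c + 1) by ring]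
          rw [Nat.mul_dvd_mul_iff_left (by positivity)] at h4 ⊢
          omega
        have h6 := cand_le_of_dvd (lo := lo) h5
          (lt_of_lt_of_le (lt_cand s lo j) (Nat.le_add_right _ _))
        have h7 := hj3 (j - 1) (by omega)
        simp at h7
        have h8 : 2 ^ (s - j) ∣ Nat.gcd (cand s lo j) (2 ^ s) :=
          Nat.dvd_gcd (dvd_cand s lo j) (pow_dvd_pow 2 (by omega))
        have h9 := Nat.le_of_dvd (gcd_pos' _ _) h8
        omega
    · exact (pow_dvd_pow 2 (by omega)).trans (dvd_cand s lo j)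

/-- the sum of simplest numbers is simplest -/
theorem IsS.add {s M₁ h₁ x M₂ h₂ y lo hi : ℕ} (hx : IsS s M₁ h₁ x) (hy : IsS s M₂ h₂ y)
    (hlo : M₁ + y ≤ lo) (hlo' : x + M₂ ≤ lo) (hhi : hi ≤ h₁ + y) (hhi' : hi ≤ x + h₂)
    (hlt : lo < x + y) (hlt' : x + y < hi) : IsS s lo hi (x + y) := by
  have key : ∀ t, t ∣ x → t ∣ y → t ∣ 2 ^ s → t ≤ Nat.gcd (x + y) (2 ^ s) := fun t h1 h2 h3 =>
    Nat.le_of_dvd (gcd_pos' _ _) (Nat.dvd_gcd (dvd_add h1 h2) h3)
  have hxl := hx.le
  have hyl := hy.le
  refine ⟨hlt, hlt', ?_, ?_⟩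
  all_goals
    obtain ⟨i, hi', h1⟩ := gcd_pow s x
    obtain ⟨j, hj', h2⟩ := gcd_pow s y
    rcases le_total i j with hij | hij
  · have := key (Nat.gcd x (2 ^ s)) (Nat.gcd_dvd_left _ _)
      ((h1 ▸ h2 ▸ pow_dvd_pow 2 hij : Nat.gcd x (2 ^ s) ∣ Nat.gcd y (2 ^ s)).trans
        (Nat.gcd_dvd_left _ _)) (Nat.gcd_dvd_right _ _)
    omega
  · have := key (Nat.gcd y (2 ^ s))
      ((h1 ▸ h2 ▸ pow_dvd_pow 2 hij : Nat.gcd y (2 ^ s) ∣ Nat.gcd x (2 ^ s)).trans
        (Nat.gcd_dvd_left _ _)) (Nat.gcd_dvd_left _ _) (Nat.gcd_dvd_right _ _)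
    omega
  · have h3 := key (Nat.gcd x (2 ^ s)) (Nat.gcd_dvd_left _ _)
      ((h1 ▸ h2 ▸ pow_dvd_pow 2 hij : Nat.gcd x (2 ^ s) ∣ Nat.gcd y (2 ^ s)).trans
        (Nat.gcd_dvd_left _ _)) (Nat.gcd_dvd_right _ _)
    rcases hx.or with h4 | h4
    · left
      apply le_antisymm (Nat.le_of_dvd (by positivity) (Nat.gcd_dvd_right _ _))
      rw [h4] at h3
      exact h3
    · right; omega
  · have h3 := key (Nat.gcd y (2 ^ s))
      ((h1 ▸ h2 ▸ pow_dvd_pow 2 hij : Nat.gcd y (2 ^ s) ∣ Nat.gcd x (2 ^ s)).trans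
        (Nat.gcd_dvd_left _ _)) (Nat.gcd_dvd_left _ _) (Nat.gcd_dvd_right _ _)
    rcases hy.or with h4 | h4
    · left
      apply le_antisymm (Nat.le_of_dvd (by positivity) (Nat.gcd_dvd_right _ _))
      rw [h4] at h3
      exact h3
    · right; omega

variable {V : Type} [DecidableEq V]

/-- the positions after a legal move -/
def opts (F : Finset (Finset V)) (U : Finset V) : Finset (Finset V) :=
  (F.filter (fun A => (A ∩ U).Nonempty)).image (fun A => U \ A)

theorem mem_opts {F : Finset (Finset V)} {U P : Finset V} :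
    P ∈ opts F U ↔ ∃ A ∈ F, (A ∩ U).Nonempty ∧ U \ A = P := by
  simp [opts, and_assoc]

theorem card_opts {F : Finset (Finset V)} {U P : Finset V} (h : P ∈ opts F U) :
    P.card + 1 ≤ U.card := by
  obtain ⟨A, _, ⟨x, hx⟩, rfl⟩ := mem_opts.1 h
  rw [mem_inter] at hx
  apply card_lt_card
  exact ⟨sdiff_subset, fun h' => (mem_sdiff.1 (h' hx.2)).2 hx.1⟩

theorem opts_nonempty {F : Finset (Finset V)} {U : Finset V} (hc : Cover F U)
    (hU : U.Nonempty) : (opts F U).Nonempty := by
  obtain ⟨u, hu⟩ := hU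
  obtain ⟨A, hA, huA⟩ := hc u hu
  exact ⟨_, mem_opts.2 ⟨A, hA, ⟨u, mem_inter.2 ⟨huA, hu⟩⟩, rfl⟩⟩

open Classical in
/-- the value, with fuel -/
noncomputable def num (F : Finset (Finset V)) (s : ℕ) : ℕ → Finset V → ℕ
  | 0, _ => 0
  | k + 1, U => if U = ∅ then 0 else
      simplest s ((opts F U).sup (num F s k)) (sInf (num F s k '' (opts F U : Set (Finset V))) +
        2 * 2 ^ s)

/-- the value of a position -/
noncomputable def val (F : Finset (Finset V)) (s : ℕ) (U : Finset V) : ℕ := num F s U.card U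

theorem num_congr (F : Finset (Finset V)) (s n : ℕ) : ∀ (U : Finset V) (k k' : ℕ), U.card ≤ n →
    U.card ≤ k → U.card ≤ k' → num F s k U = num F s k' U := by
  induction n with
  | zero =>
    intro U k k' hU _ _
    have : U = ∅ := card_eq_zero.1 (Nat.le_zero.1 hU)
    subst this
    cases k <;> cases k' <;> simp [num]
  | succ n ih =>
    intro U k k' hU hk hk'
    rcases U.eq_empty_or_nonempty with h0 | hne
    · subst h0
      cases k <;> cases k' <;> simp [num]
    · have hpos := card_pos.2 hne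
      obtain ⟨k, rfl⟩ : ∃ l, k = l + 1 := ⟨k - 1, by omega⟩
      obtain ⟨k', rfl⟩ : ∃ l, k' = l + 1 := ⟨k' - 1, by omega⟩
      have h1 : ∀ P ∈ opts F U, num F s k P = num F s k' P := fun P hP => by
        have := card_opts hP
        exact ih P k k' (by omega) (by omega) (by omega)
      simp only [num, hne.ne_empty, if_false]
      rw [Finset.sup_congr rfl h1, Set.image_congr (fun P hP => h1 P (by simpa using hP))]

theorem num_eq_val (F : Finset (Finset V)) (s : ℕ) {U : Finset V} {k : ℕ} (h : U.card ≤ k) :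
    num F s k U = val F s U := num_congr F s _ U k _ le_rfl h le_rfl

theorem val_empty (F : Finset (Finset V)) (s : ℕ) : val F s ∅ = 0 := rfl

/-- the largest value of an option -/
noncomputable def hiv (F : Finset (Finset V)) (s : ℕ) (U : Finset V) : ℕ :=
  (opts F U).sup (val F s)

/-- the smallest value of an option -/
noncomputable def lov (F : Finset (Finset V)) (s : ℕ) (U : Finset V) : ℕ :=
  sInf (val F s '' (opts F U : Set (Finset V)))

theorem val_eq (F : Finset (Finset V)) (s : ℕ) {U : Finset V} (hne : U.Nonempty) :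
    val F s U = simplest s (hiv F s U) (lov F s U + 2 * 2 ^ s) := by
  have hpos := card_pos.2 hne
  rw [← num_eq_val F s (show U.card ≤ (U.card - 1) + 1 by omega)]
  have h1 : ∀ P ∈ opts F U, num F s (U.card - 1) P = val F s P := fun P hP => by
    have := card_opts hP
    exact num_eq_val F s (by omega)
  simp only [num, hne.ne_empty, if_false, hiv, lov]
  rw [Finset.sup_congr rfl h1, Set.image_congr (fun P hP => h1 P (by simpa using hP))]

theorem le_hiv {F : Finset (Finset V)} {s : ℕ} {U P : Finset V} (h : P ∈ opts F U) :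
    val F s P ≤ hiv F s U := Finset.le_sup (f := val F s) h

theorem lov_le {F : Finset (Finset V)} {s : ℕ} {U P : Finset V} (h : P ∈ opts F U) :
    lov F s U ≤ val F s P := Nat.sInf_le ⟨P, by simpa using h, rfl⟩

theorem exists_hiv {F : Finset (Finset V)} (s : ℕ) {U : Finset V} (hc : Cover F U)
    (hU : U.Nonempty) : ∃ P ∈ opts F U, val F s P = hiv F s U := by
  obtain ⟨P, hP, h⟩ := Finset.exists_mem_eq_sup (opts F U) (opts_nonempty hc hU) (val F s)
  exact ⟨P, hP, h.symm⟩

theorem exists_lov {F : Finset (Finset V)} (s : ℕ) {U : Finset V} (hc : Cover F U)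
    (hU : U.Nonempty) : ∃ P ∈ opts F U, val F s P = lov F s U := by
  obtain ⟨P, hP⟩ := opts_nonempty hc hU
  obtain ⟨Q, hQ, h⟩ := Nat.sInf_mem (s := val F s '' (opts F U : Set (Finset V)))
    ⟨_, P, by simpa using hP, rfl⟩
  exact ⟨Q, by simpa using hQ, h⟩

theorem Cover.opts {F : Finset (Finset V)} {U P : Finset V} (hc : Cover F U)
    (h : P ∈ opts F U) : Cover F P := by
  obtain ⟨A, _, _, rfl⟩ := mem_opts.1 h
  exact hc.mono sdiff_subset

theorem val_main (F : Finset (Finset V)) (s n : ℕ) : ∀ U : Finset V, U.card ≤ n → U.card ≤ s →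
    Cover F U → 2 ^ (s - U.card) ∣ val F s U ∧
      (U.Nonempty → IsS s (hiv F s U) (lov F s U + 2 * 2 ^ s) (val F s U)) := by
  induction n with
  | zero =>
    intro U hU _ _
    have : U = ∅ := card_eq_zero.1 (Nat.le_zero.1 hU)
    subst this
    exact ⟨by simp [val_empty], fun h => absurd h (by simp)⟩
  | succ n ih =>
    intro U hU hs hc
    rcases U.eq_empty_or_nonempty with h0 | hne
    · subst h0
      exact ⟨by simp [val_empty], fun h => absurd h (by simp)⟩
    have hpos := card_pos.2 hne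
    -- comparison of an option with an option of the option
    have key : ∀ A ∈ F, (A ∩ U).Nonempty → ∀ B ∈ F,
        val F s ((U \ A) \ B) ≤ val F s (U \ A) ∧
        val F s (U \ A) < val F s ((U \ A) \ B) + 2 * 2 ^ s := by
      intro A hA hAU B hB
      have hP : U \ A ∈ opts F U := mem_opts.2 ⟨A, hA, hAU, rfl⟩
      have hcard := card_opts hP
      by_cases hB' : (B ∩ (U \ A)).Nonempty
      · have hne' : (U \ A).Nonempty := hB'.mono inter_subset_right
        have h1 := (ih (U \ A) (by omega) (by omega) (hc.opts hP)).2 hne'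
        have h2 : (U \ A) \ B ∈ opts F (U \ A) := mem_opts.2 ⟨B, hB, hB', rfl⟩
        have h3 := le_hiv (s := s) h2
        have h4 := lov_le (s := s) h2
        have h5 := h1.lt
        have h6 := h1.lt'
        omega
      · have h1 : (U \ A) \ B = U \ A := by
          rw [Finset.sdiff_eq_self_iff_disjoint, Finset.disjoint_left]
          intro x hx hxB
          exact hB' ⟨x, mem_inter.2 ⟨hxB, hx⟩⟩
        rw [h1]
        exact ⟨le_rfl, by have : 0 < 2 ^ s := by positivity
                          omega⟩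
    obtain ⟨P, hP, hPM⟩ := exists_hiv s hc hne
    obtain ⟨Q, hQ, hQm⟩ := exists_lov s hc hne
    have hlt : hiv F s U < lov F s U + 2 * 2 ^ s := by
      rw [← hPM, ← hQm]
      obtain ⟨A, hA, hAU, rfl⟩ := mem_opts.1 hP
      obtain ⟨B, hB, hBU, rfl⟩ := mem_opts.1 hQ
      have h1 := key A hA hAU B hB
      have h2 := key B hB hBU A hA
      have h3 : (U \ A) \ B = (U \ B) \ A := by
        rw [sdiff_sdiff_comm]
      rw [h3] at h1
      omega
    have hdP : 2 ^ (s - (U.card - 1)) ∣ hiv F s U := by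
      rw [← hPM]
      have := card_opts hP
      exact (pow_dvd_pow 2 (by omega)).trans (ih P (by omega) (by omega) (hc.opts hP)).1
    have hdQ : 2 ^ (s - (U.card - 1)) ∣ lov F s U := by
      rw [← hQm]
      have := card_opts hQ
      exact (pow_dvd_pow 2 (by omega)).trans (ih Q (by omega) (by omega) (hc.opts hQ)).1
    have h1 := simplest_spec (s := s) (e := U.card - 1) (by omega) hdP
      (dvd_add hdQ ((pow_dvd_pow 2 (by omega)).trans (dvd_mul_left _ _))) hlt
    rw [val_eq F s hne]
    refine ⟨?_, fun _ => h1.1⟩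
    have h2 := h1.2
    rwa [show U.card - 1 + 1 = U.card by omega] at h2

theorem val_spec {F : Finset (Finset V)} {s : ℕ} {U : Finset V} (hs : U.card ≤ s)
    (hc : Cover F U) (hne : U.Nonempty) :
    IsS s (hiv F s U) (lov F s U + 2 * 2 ^ s) (val F s U) :=
  (val_main F s _ U le_rfl hs hc).2 hne

/-- **Additivity** -/
theorem val_union_aux (F : Finset (Finset V)) (s n : ℕ) : ∀ U₁ U₂ : Finset V,
    U₁.card + U₂.card ≤ n → U₁.card + U₂.card ≤ s → Cover F U₁ → Cover F U₂ →
    (∀ A ∈ F, A ∩ U₁ = ∅ ∨ A ∩ U₂ = ∅) →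
    val F s (U₁ ∪ U₂) = val F s U₁ + val F s U₂ := by
  induction n with
  | zero =>
    intro U₁ U₂ h _ _ _ _
    have h1 : U₁ = ∅ := card_eq_zero.1 (by omega)
    have h2 : U₂ = ∅ := card_eq_zero.1 (by omega)
    subst h1; subst h2
    simp [val_empty]
  | succ n ih =>
    intro U₁ U₂ hn hs hc₁ hc₂ hind
    rcases U₁.eq_empty_or_nonempty with h0 | hne₁
    · subst h0; simp [val_empty]
    rcases U₂.eq_empty_or_nonempty with h0 | hne₂
    · subst h0; simp [val_empty]
    have hc : Cover F (U₁ ∪ U₂) := by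
      intro u hu
      rcases mem_union.1 hu with h | h
      · exact hc₁ u h
      · exact hc₂ u h
    have hne : (U₁ ∪ U₂).Nonempty := hne₁.mono subset_union_left
    have hcard : (U₁ ∪ U₂).card ≤ s := (card_union_le _ _).trans hs
    -- options
    have o1 : ∀ A ∈ F, (A ∩ U₁).Nonempty → U₁ \ A ∈ opts F U₁ ∧
        (U₁ ∪ U₂) \ A ∈ opts F (U₁ ∪ U₂) ∧
        val F s ((U₁ ∪ U₂) \ A) = val F s (U₁ \ A) + val F s U₂ := by
      intro A hA hAU
      have h1 : U₁ \ A ∈ opts F U₁ := mem_opts.2 ⟨A, hA, hAU, rfl⟩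
      have h2 := card_opts h1
      have h3 : A ∩ U₂ = ∅ := (hind A hA).resolve_left hAU.ne_empty
      have h4 : (U₁ ∪ U₂) \ A = (U₁ \ A) ∪ U₂ := by
        rw [union_sdiff_distrib]
        congr 1
        rw [Finset.sdiff_eq_self_iff_disjoint, disjoint_iff_inter_eq_empty, inter_comm]
        exact h3
      refine ⟨h1, mem_opts.2 ⟨A, hA, hAU.mono (inter_subset_inter (le_refl _)
        subset_union_left), rfl⟩, ?_⟩
      rw [h4]
      refine ih _ _ (by omega) (by omega) (hc₁.opts h1) hc₂ ?_
      intro B hB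
      rcases hind B hB with h | h
      · left
        rw [← Finset.subset_empty] at h ⊢
        exact (inter_subset_inter (le_refl _) sdiff_subset).trans h
      · exact Or.inr h
    have o2 : ∀ A ∈ F, (A ∩ U₂).Nonempty → U₂ \ A ∈ opts F U₂ ∧
        (U₁ ∪ U₂) \ A ∈ opts F (U₁ ∪ U₂) ∧
        val F s ((U₁ ∪ U₂) \ A) = val F s U₁ + val F s (U₂ \ A) := by
      intro A hA hAU
      have h1 : U₂ \ A ∈ opts F U₂ := mem_opts.2 ⟨A, hA, hAU, rfl⟩
      have h2 := card_opts h1
      have h3 : A ∩ U₁ = ∅ := (hind A hA).resolve_right hAU.ne_empty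
      have h4 : (U₁ ∪ U₂) \ A = U₁ ∪ (U₂ \ A) := by
        rw [union_sdiff_distrib]
        congr 1
        rw [Finset.sdiff_eq_self_iff_disjoint, disjoint_iff_inter_eq_empty, inter_comm]
        exact h3
      refine ⟨h1, mem_opts.2 ⟨A, hA, hAU.mono (inter_subset_inter (le_refl _)
        subset_union_right), rfl⟩, ?_⟩
      rw [h4]
      refine ih _ _ (by omega) (by omega) hc₁ (hc₂.opts h1) ?_
      intro B hB
      rcases hind B hB with h | h
      · exact Or.inl h
      · right
        rw [← Finset.subset_empty] at h ⊢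
        exact (inter_subset_inter (le_refl _) sdiff_subset).trans h
    have s1 := val_spec (s := s) (by omega) hc₁ hne₁
    have s2 := val_spec (s := s) (by omega) hc₂ hne₂
    refine (val_spec hcard hc hne).unique ?_
    -- each option of the union is of one of the two kinds
    have split : ∀ P ∈ opts F (U₁ ∪ U₂),
        (∃ Q ∈ opts F U₁, val F s P = val F s Q + val F s U₂) ∨
        (∃ Q ∈ opts F U₂, val F s P = val F s U₁ + val F s Q) := by
      intro P hP
      obtain ⟨A, hA, hAU, rfl⟩ := mem_opts.1 hP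
      obtain ⟨x, hx⟩ := hAU
      rw [mem_inter, mem_union] at hx
      rcases hx with ⟨hxA, hx | hx⟩
      · obtain ⟨a, _, c⟩ := o1 A hA ⟨x, mem_inter.2 ⟨hxA, hx⟩⟩
        exact Or.inl ⟨_, a, c⟩
      · obtain ⟨a, _, c⟩ := o2 A hA ⟨x, mem_inter.2 ⟨hxA, hx⟩⟩
        exact Or.inr ⟨_, a, c⟩
    have e1 : hiv F s U₁ + val F s U₂ ≤ hiv F s (U₁ ∪ U₂) := by
      obtain ⟨P, hP, h⟩ := exists_hiv s hc₁ hne₁
      obtain ⟨A, hA, hAU, rfl⟩ := mem_opts.1 hP
      obtain ⟨_, b, c⟩ := o1 A hA hAU
      rw [← h, ← c]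
      exact le_hiv b
    have e2 : val F s U₁ + hiv F s U₂ ≤ hiv F s (U₁ ∪ U₂) := by
      obtain ⟨P, hP, h⟩ := exists_hiv s hc₂ hne₂
      obtain ⟨A, hA, hAU, rfl⟩ := mem_opts.1 hP
      obtain ⟨_, b, c⟩ := o2 A hA hAU
      rw [← h, ← c]
      exact le_hiv b
    have e3 : lov F s (U₁ ∪ U₂) ≤ lov F s U₁ + val F s U₂ := by
      obtain ⟨P, hP, h⟩ := exists_lov s hc₁ hne₁
      obtain ⟨A, hA, hAU, rfl⟩ := mem_opts.1 hP
      obtain ⟨_, b, c⟩ := o1 A hA hAU
      rw [← h, ← c]
      exact lov_le b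
    have e4 : lov F s (U₁ ∪ U₂) ≤ val F s U₁ + lov F s U₂ := by
      obtain ⟨P, hP, h⟩ := exists_lov s hc₂ hne₂
      obtain ⟨A, hA, hAU, rfl⟩ := mem_opts.1 hP
      obtain ⟨_, b, c⟩ := o2 A hA hAU
      rw [← h, ← c]
      exact lov_le b
    have l1 := s1.lt
    have l2 := s1.lt'
    have l3 := s2.lt
    have l4 := s2.lt'
    refine IsS.add s1 s2 e1 e2 (by omega) (by omega) ?_ ?_
    · obtain ⟨P, hP, h⟩ := exists_hiv s hc hne
      rw [← h]
      rcases split P hP with ⟨Q, hQ, h'⟩ | ⟨Q, hQ, h'⟩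
      · have := le_hiv (s := s) hQ
        omega
      · have := le_hiv (s := s) hQ
        omega
    · obtain ⟨P, hP, h⟩ := exists_lov s hc hne
      rw [← h]
      rcases split P hP with ⟨Q, hQ, h'⟩ | ⟨Q, hQ, h'⟩
      · have := lov_le (s := s) hQ
        omega
      · have := lov_le (s := s) hQ
        omega

/-- **Additivity** of the value over independent parts -/
theorem val_union {F : Finset (Finset V)} {s : ℕ} {U₁ U₂ : Finset V}
    (hs : U₁.card + U₂.card ≤ s) (hc₁ : Cover F U₁) (hc₂ : Cover F U₂)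
    (h : ∀ A ∈ F, A ∩ U₁ = ∅ ∨ A ∩ U₂ = ∅) :
    val F s (U₁ ∪ U₂) = val F s U₁ + val F s U₂ :=
  val_union_aux F s _ U₁ U₂ le_rfl hs hc₁ hc₂ h

/-- **The value determines the number of moves**: floor and ceiling -/
theorem E_iff {F : Finset (Finset V)} (hF : MaxNbr F) (s n : ℕ) : ∀ U : Finset V, U.card ≤ n →
    U.card ≤ s → Cover F U → ∀ k, (E F k true U ↔ val F s U < (k + 1) * 2 ^ s) ∧
      (E F k false U ↔ val F s U ≤ k * 2 ^ s) := by
  have hq : 0 < 2 ^ s := by positivity
  induction n with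
  | zero =>
    intro U hU _ _ k
    have : U = ∅ := card_eq_zero.1 (Nat.le_zero.1 hU)
    subst this
    simp only [val_empty, E_empty, true_iff]
    exact ⟨by positivity, by positivity⟩
  | succ n ih =>
    intro U hU hs hc k
    rcases U.eq_empty_or_nonempty with h0 | hne
    · subst h0
      simp only [val_empty, E_empty, true_iff]
      exact ⟨by positivity, by positivity⟩
    have sp := val_spec hs hc hne
    obtain ⟨P, hP, hPM⟩ := exists_hiv s hc hne
    obtain ⟨Q, hQ, hQm⟩ := exists_lov s hc hne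
    set z := val F s U with hz
    set M := hiv F s U with hM
    set m := lov F s U with hm
    -- if a multiple `y` of `2 ^ s` is in the interval, then `z` is a multiple of `2 ^ s`
    have l1 := sp.lt
    have l2 := sp.lt'
    have l3 := sp.le
    have up : ∀ c, M < c * 2 ^ s → z < c * 2 ^ s → c * 2 ^ s < m + 2 * 2 ^ s →
        2 ^ s ∣ z := by
      intro c h1 h2 h3
      rcases sp.or with h4 | h4
      · rw [← h4]; exact Nat.gcd_dvd_left _ _
      · exfalso
        have h5 : Nat.gcd z (2 ^ s) ∣ c * 2 ^ s := (Nat.gcd_dvd_right _ _).mul_left _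
        have h6 := lt_add_of_dvd (x := c * 2 ^ s) (y := z) h5 (Nat.gcd_dvd_left _ _) (by omega)
        omega
    have down : ∀ c, M < c * 2 ^ s → c * 2 ^ s < z → 2 ^ s ∣ z := by
      intro c h1 h2
      by_cases h4 : Nat.gcd z (2 ^ s) = 2 ^ s
      · rw [← h4]; exact Nat.gcd_dvd_left _ _
      · exfalso
        have h5 : Nat.gcd z (2 ^ s) ∣ c * 2 ^ s := (Nat.gcd_dvd_right _ _).mul_left _
        have h6 := lt_add_of_dvd (x := z) (y := c * 2 ^ s) (Nat.gcd_dvd_left _ _) h5 (by omega)
        omega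
    cases k with
    | zero =>
      have hE : ∀ b, ¬ E F 0 b U := fun b h => hne.ne_empty h
      simp only [hE, false_iff, Nat.zero_add, one_mul, zero_mul, not_lt, not_le]
      refine ⟨?_, by omega⟩
      by_contra h
      push Not at h
      have h1 := up 1 (by omega) (by omega) (by omega)
      have h2 := Nat.le_of_dvd (by omega) h1
      omega
    | succ k =>
      have e1 : E F (k + 1) true U ↔ m ≤ k * 2 ^ s := by
        constructor
        · rintro (h | ⟨A, hA, hAU, h⟩)
          · exact absurd h hne.ne_empty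
          · have hO : U \ A ∈ opts F U := mem_opts.2 ⟨A, hA, hAU, rfl⟩
            have hcard := card_opts hO
            rw [(ih _ (by omega) (by omega) (hc.opts hO) k).2] at h
            exact (lov_le hO).trans h
        · intro h
          obtain ⟨A, hA, hAU, rfl⟩ := mem_opts.1 hQ
          have hcard := card_opts hQ
          refine Or.inr ⟨A, hA, hAU, ?_⟩
          rw [(ih _ (by omega) (by omega) (hc.opts hQ) k).2, hQm]
          exact h
      have e2 : E F (k + 1) false U ↔ M < (k + 1) * 2 ^ s := by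
        constructor
        · rintro (h | h)
          · exact absurd h hne.ne_empty
          · obtain ⟨A, hA, hAU, rfl⟩ := mem_opts.1 hP
            have hcard := card_opts hP
            have h1 := h A hA hAU
            rw [(ih _ (by omega) (by omega) (hc.opts hP) k).1, hPM] at h1
            exact h1
        · intro h
          refine Or.inr fun A hA hAU => ?_
          have hO : U \ A ∈ opts F U := mem_opts.2 ⟨A, hA, hAU, rfl⟩
          have hcard := card_opts hO
          rw [(ih _ (by omega) (by omega) (hc.opts hO) k).1]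
          exact lt_of_le_of_lt (le_hiv hO) h
      have nm := noMinus hF _ U le_rfl hc (k + 1)
      rw [e1, e2] at nm
      rw [e1, e2]
      have x1 : (k + 1 + 1) * 2 ^ s = k * 2 ^ s + 2 * 2 ^ s := by ring
      have x2 : (k + 1) * 2 ^ s = k * 2 ^ s + 2 ^ s := by ring
      constructor
      · constructor
        · intro h; omega
        · intro h
          by_contra h'
          push Not at h'
          have h3 : (k + 1) * 2 ^ s ≤ M := by
            by_contra h4
            push Not at h4
            have := nm h4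
            omega
          have h4 := up (k + 2) (by show M < (k + 1 + 1) * 2 ^ s; omega)
            (by show z < (k + 1 + 1) * 2 ^ s; omega)
            (by show (k + 1 + 1) * 2 ^ s < _; omega)
          have h5 := lt_add_of_dvd (t := 2 ^ s) (x := z) (y := (k + 1) * 2 ^ s) h4
            (dvd_mul_left _ _) (by omega)
          omega
      · constructor
        · intro h
          by_contra h'
          push Not at h'
          have h4 := down (k + 1) h h'
          have h6 : Nat.gcd z (2 ^ s) = 2 ^ s := Nat.gcd_eq_right h4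
          have h5 := lt_add_of_dvd (t := 2 ^ s) (x := z) (y := (k + 1) * 2 ^ s) h4
            (dvd_mul_left _ _) (by omega)
          omega
        · intro h; omega

end Pool.Agent.Lib.MP_104f04_lc
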